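import Mathlib

/-!
# Artin induction: rational class functions are rational combinations of permutation characters
-/

set_option autoImplicit false

namespace Pool.Agent.K7.H70.EQ

open scoped Classical

section
variable {G : Type} [Group G]

/-- the number of the fixed points of `g` on `G / H` -/
noncomputable def fixN (H : Subgroup G) (g : G) : ℕ := Nat.card {x : G ⧸ H // g • x = x}

/-- a class function which depends only on the group generated by the element -/
structure RatCls (χ : G → ℚ) : Prop where
  conj : ∀ g x : G, χ (x * g * x⁻¹) = χ g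
  pow : ∀ (g : G) (k : ℕ), (orderOf g).Coprime k → χ (g ^ k) = χ g

lemma fixN_conj (H : Subgroup G) (g x : G) : fixN H (x * g * x⁻¹) = fixN H g := by
  refine Nat.card_congr
    { toFun := fun y => ⟨x⁻¹ • y.1, ?_⟩
      invFun := fun y => ⟨x • y.1, ?_⟩
      left_inv := fun y => Subtype.ext (smul_inv_smul x y.1)
      right_inv := fun y => Subtype.ext (inv_smul_smul x y.1) }
  · have h := y.2
    rw [mul_smul, mul_smul] at h
    exact (smul_left_cancel_iff x).1 (by rw [smul_inv_smul]; exact h)
  · have h := y.2
    rw [mul_smul, mul_smul, inv_smul_smul, h]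

lemma fixN_pow [Finite G] (H : Subgroup G) (g : G) (k : ℕ) (hk : (orderOf g).Coprime k) :
    fixN H (g ^ k) = fixN H g := by
  have key : ∀ y : G ⧸ H, (g ^ k) • y = y ↔ g • y = y := by
    intro y
    constructor
    · intro h
      obtain ⟨j, hj⟩ := exists_pow_eq_self_of_coprime hk.symm
      have h2 : ∀ i : ℕ, ((g ^ k) ^ i) • y = y := by
        intro i
        induction i with
        | zero => rw [pow_zero, one_smul]
        | succ i ih => rw [pow_succ, mul_smul, h, ih]
      rw [← hj]
      exact h2 j
    · intro h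
      induction k with
      | zero => rw [pow_zero, one_smul]
      | succ i _ =>
        have h2 : ∀ i : ℕ, (g ^ i) • y = y := by
          intro i
          induction i with
          | zero => rw [pow_zero, one_smul]
          | succ i ih => rw [pow_succ, mul_smul, h, ih]
        exact h2 _
  exact Nat.card_congr (Equiv.subtypeEquivRight key)

lemma fixN_ratCls [Finite G] (H : Subgroup G) : RatCls fun g => (fixN H g : ℚ) where
  conj g x := by rw [fixN_conj]
  pow g k hk := by rw [fixN_pow H g k hk]

lemma fixN_self [Finite G] (g : G) : fixN (Subgroup.zpowers g) g ≠ 0 := by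
  have : Finite (G ⧸ Subgroup.zpowers g) := inferInstance
  have h : Nonempty {x : G ⧸ Subgroup.zpowers g // g • x = x} := by
    refine ⟨⟨((1 : G) : G ⧸ Subgroup.zpowers g), ?_⟩⟩
    have : g • ((1 : G) : G ⧸ Subgroup.zpowers g) = ((g * 1 : G) : G ⧸ Subgroup.zpowers g) := rfl
    rw [this, mul_one, QuotientGroup.eq]
    simp
  exact Nat.card_ne_zero.2 ⟨h, inferInstance⟩

/-- an element with a fixed point on `G / ⟨g⟩` has smaller order than `g` or is conjugate to a
generator of `⟨g⟩` -/
lemma fixN_zpowers [Finite G] {g h : G} (hh : fixN (Subgroup.zpowers g) h ≠ 0) :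
    orderOf h < orderOf g ∨ ∃ (x : G) (k : ℕ), (orderOf g).Coprime k ∧ h = x * g ^ k * x⁻¹ := by
  obtain ⟨⟨⟨y, hy⟩⟩, -⟩ := Nat.card_ne_zero.1 hh
  obtain ⟨x, rfl⟩ := QuotientGroup.mk_surjective y
  have h1 : h • ((x : G) : G ⧸ Subgroup.zpowers g) = ((h * x : G) : G ⧸ Subgroup.zpowers g) := rfl
  rw [h1] at hy
  have h2 : (h * x)⁻¹ * x ∈ Subgroup.zpowers g := QuotientGroup.eq.1 hy
  have h3 : x⁻¹ * h * x ∈ Subgroup.zpowers g := by
    have := (Subgroup.zpowers g).inv_mem h2
    simpa [mul_assoc] using this
  obtain ⟨k, hk⟩ := (isOfFinOrder_of_finite g).mem_powers_iff_mem_zpowers.2 h3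
  have hk' : g ^ k = x⁻¹ * h * x := hk
  have h4 : h = x * g ^ k * x⁻¹ := by rw [hk']; group
  have h5 : orderOf h = orderOf (g ^ k) := by
    rw [h4]
    have : x * g ^ k * x⁻¹ = MulAut.conj x (g ^ k) := rfl
    rw [this]
    exact MulEquiv.orderOf_eq (MulAut.conj x) (g ^ k)
  by_cases hc : (orderOf g).Coprime k
  · exact Or.inr ⟨x, k, hc, h4⟩
  · left
    rw [h5, orderOf_pow]
    have hg : 0 < orderOf g := orderOf_pos g
    have h6 : 1 < (orderOf g).gcd k := by
      have h7 : (orderOf g).gcd k ≠ 1 := hc
      have h8 : 0 < (orderOf g).gcd k := Nat.gcd_pos_of_pos_left _ hg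
      omega
    exact Nat.div_lt_self hg h6

/-- the size of the support -/
noncomputable def supM [Fintype G] (χ : G → ℚ) : ℕ :=
  ∑ g ∈ Finset.univ.filter (fun g => χ g ≠ 0), (Fintype.card G + 1) ^ orderOf g

theorem exists_rat [Finite G] (χ : G → ℚ) (hχ : RatCls χ) :
    ∃ c : Subgroup G → ℚ, ∀ g, χ g = ∑ᶠ H, c H * (fixN H g : ℚ) := by
  have : Fintype G := Fintype.ofFinite G
  have : Fintype (Subgroup G) := Fintype.ofFinite _
  suffices hh : ∀ (n : ℕ) (χ : G → ℚ), RatCls χ → supM χ = n →
      ∃ c : Subgroup G → ℚ, ∀ g, χ g = ∑ H, c H * (fixN H g : ℚ) by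
    obtain ⟨c, hc⟩ := hh _ χ hχ rfl
    exact ⟨c, fun g => by rw [hc g, finsum_eq_sum_of_fintype]⟩
  intro n
  induction n using Nat.strong_induction_on with
  | _ n ih =>
    intro χ hχ hn
    by_cases h0 : ∀ g, χ g = 0
    · exact ⟨fun _ => 0, fun g => by simp [h0 g]⟩
    · push Not at h0
      obtain ⟨g1, hg1⟩ := h0
      obtain ⟨g0, hg0, hmax⟩ := Finset.exists_max_image (Finset.univ.filter (fun g => χ g ≠ 0))
        orderOf ⟨g1, by simp [hg1]⟩
      have hg0' : χ g0 ≠ 0 := (Finset.mem_filter.1 hg0).2
      set C := Subgroup.zpowers g0 with hC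
      have hF : (fixN C g0 : ℚ) ≠ 0 := by exact_mod_cast fixN_self g0
      set t : ℚ := χ g0 / (fixN C g0 : ℚ) with ht
      let χ' : G → ℚ := fun g => χ g - t * (fixN C g : ℚ)
      have hχ' : RatCls χ' :=
        ⟨fun g x => by
          show χ (x * g * x⁻¹) - t * (fixN C (x * g * x⁻¹) : ℚ) = χ g - t * (fixN C g : ℚ)
          rw [hχ.conj, fixN_conj], fun g k hk => by
          show χ (g ^ k) - t * (fixN C (g ^ k) : ℚ) = χ g - t * (fixN C g : ℚ)
          rw [hχ.pow g k hk, fixN_pow C g k hk]⟩
      have h1 : ∀ h, χ' h ≠ 0 → (χ h ≠ 0 ∧ h ≠ g0) ∨ orderOf h < orderOf g0 := by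
        intro h hh
        by_cases hf : fixN C h = 0
        · left
          have e : χ' h = χ h := by
            show χ h - t * (fixN C h : ℚ) = χ h
            rw [hf]
            simp
          rw [e] at hh
          refine ⟨hh, ?_⟩
          rintro rfl
          exact hF (by exact_mod_cast hf)
        · rcases fixN_zpowers hf with h2 | ⟨x, k, hk, h2⟩
          · exact Or.inr h2
          · exfalso
            apply hh
            show χ h - t * (fixN C h : ℚ) = 0
            rw [h2, hχ.conj, hχ.pow g0 k hk, fixN_conj, fixN_pow C g0 k hk, ht]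
            field_simp
            ring
      have hlt : supM χ' < supM χ := by
        have hsub : (Finset.univ.filter (fun g => χ' g ≠ 0)) ⊆
            ((Finset.univ.filter (fun g => χ g ≠ 0)).erase g0) ∪
              (Finset.univ.filter (fun h : G => orderOf h < orderOf g0)) := by
          intro h hh
          rcases h1 h (Finset.mem_filter.1 hh).2 with ⟨h2, h3⟩ | h2
          · exact Finset.mem_union_left _ (Finset.mem_erase.2 ⟨h3, by simp [h2]⟩)
          · exact Finset.mem_union_right _ (by simp [h2])
        have e1 : supM χ = ∑ g ∈ (Finset.univ.filter (fun g => χ g ≠ 0)).erase g0,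
            (Fintype.card G + 1) ^ orderOf g + (Fintype.card G + 1) ^ orderOf g0 := by
          unfold supM
          rw [Finset.sum_erase_add _ _ hg0]
        have hpos : 0 < orderOf g0 := orderOf_pos g0
        have e2 : ∑ h ∈ Finset.univ.filter (fun h : G => orderOf h < orderOf g0),
            (Fintype.card G + 1) ^ orderOf h < (Fintype.card G + 1) ^ orderOf g0 := by
          calc ∑ h ∈ Finset.univ.filter (fun h : G => orderOf h < orderOf g0),
              (Fintype.card G + 1) ^ orderOf h
              ≤ ∑ h ∈ Finset.univ.filter (fun h : G => orderOf h < orderOf g0),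
                (Fintype.card G + 1) ^ (orderOf g0 - 1) := by
                refine Finset.sum_le_sum fun h hh => ?_
                have := (Finset.mem_filter.1 hh).2
                exact Nat.pow_le_pow_right (Nat.succ_pos _) (by omega)
            _ ≤ Fintype.card G * (Fintype.card G + 1) ^ (orderOf g0 - 1) := by
                rw [Finset.sum_const, smul_eq_mul]
                exact Nat.mul_le_mul_right _ (Finset.card_le_univ _)
            _ < (Fintype.card G + 1) * (Fintype.card G + 1) ^ (orderOf g0 - 1) := by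
                exact Nat.mul_lt_mul_of_pos_right (Nat.lt_succ_self _) (by positivity)
            _ = (Fintype.card G + 1) ^ orderOf g0 := by
                rw [← pow_succ']
                congr 1
                omega
        calc supM χ' ≤ ∑ g ∈ ((Finset.univ.filter (fun g => χ g ≠ 0)).erase g0) ∪
              (Finset.univ.filter (fun h : G => orderOf h < orderOf g0)),
              (Fintype.card G + 1) ^ orderOf g := Finset.sum_le_sum_of_subset hsub
          _ ≤ ∑ g ∈ (Finset.univ.filter (fun g => χ g ≠ 0)).erase g0,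
              (Fintype.card G + 1) ^ orderOf g +
              ∑ h ∈ Finset.univ.filter (fun h : G => orderOf h < orderOf g0),
              (Fintype.card G + 1) ^ orderOf h := by
                rw [← Finset.sum_union_inter]
                exact Nat.le_add_right _ _
          _ < supM χ := by rw [e1]; exact Nat.add_lt_add_left e2 _
      obtain ⟨c, hc⟩ := ih (supM χ') (hn ▸ hlt) χ' hχ' rfl
      refine ⟨fun H => c H + if H = C then t else 0, fun g => ?_⟩
      have h3 := hc g
      have h4 : χ g - t * (fixN C g : ℚ) = ∑ H, c H * (fixN H g : ℚ) := h3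
      simp only [add_mul, Finset.sum_add_distrib, ite_mul, zero_mul, Finset.sum_ite_eq',
        Finset.mem_univ, if_true]
      linarith

/-- **Artin induction.** -/
theorem artin_ind [Fintype G] [Fintype (Subgroup G)] (χ : G → ℚ) (hχ : RatCls χ) :
    ∃ (m : ℕ) (n : Subgroup G → ℤ), 0 < m ∧
      ∀ g, (m : ℚ) * χ g = ∑ H, (n H : ℚ) * (fixN H g : ℚ) := by
  obtain ⟨c, hc⟩ := exists_rat χ hχ
  refine ⟨∏ H, (c H).den, fun H => (c H).num * ∏ H' ∈ Finset.univ.erase H, ((c H').den : ℤ),
    Finset.prod_pos fun H _ => (c H).den_pos, fun g => ?_⟩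
  rw [hc g, finsum_eq_sum_of_fintype, Finset.mul_sum]
  refine Finset.sum_congr rfl fun H _ => ?_
  rw [← mul_assoc]
  congr 1
  rw [← Finset.mul_prod_erase Finset.univ _ (Finset.mem_univ H)]
  push_cast
  have h1 : ((c H).den : ℚ) * c H = (c H).num := Rat.den_mul_eq_num (c H)
  rw [← h1]
  ring

end

end Pool.Agent.K7.H70.EQ
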