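import Pool.Agent.K7.H70.EQ.Det
import Pool.Agent.K7.H70.EQ.Art

/-!
# Characters with rational values depend only on the group generated by the element
-/

set_option autoImplicit false

namespace Pool.Agent.K7.H70.EQ

open Polynomial

/-- a rational sum of roots of unity is invariant under the Galois action -/
lemma sum_pow_eq {ι : Type} [Fintype ι] {N : ℕ} (hN : 0 < N) {z : ι → ℂ}
    (hz : ∀ i, z i = 0 ∨ z i ^ N = 1) {r : ℚ} (hr : ∑ i, z i = (r : ℂ)) {k : ℕ} (hk : k.Coprime N)
    (hk0 : k ≠ 0) : ∑ i, z i ^ k = (r : ℂ) := by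
  classical
  have : NeZero N := ⟨hN.ne'⟩
  set ζ : ℂ := Complex.exp (2 * Real.pi * Complex.I / N) with hζ
  have hprim : IsPrimitiveRoot ζ N := Complex.isPrimitiveRoot_exp N hN.ne'
  have h1 : ∀ i, ∃ a : ℕ, z i ≠ 0 → z i = ζ ^ a := by
    intro i
    by_cases h0 : z i = 0
    · exact ⟨0, fun h => absurd h0 h⟩
    · rcases hz i with h | h
      · exact absurd h h0
      · obtain ⟨a, -, ha⟩ := hprim.eq_pow_of_pow_eq_one h
        exact ⟨a, fun _ => ha.symm⟩
  choose a ha using h1
  let P : ℚ[X] := ∑ i ∈ Finset.univ.filter (fun i => z i ≠ 0), X ^ a i - C r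
  have hP : ∀ w : ℂ, aeval w P = ∑ i ∈ Finset.univ.filter (fun i => z i ≠ 0), w ^ a i - (r : ℂ) := by
    intro w
    rw [map_sub, map_sum, aeval_C, eq_ratCast]
    congr 1
    exact Finset.sum_congr rfl fun i _ => by rw [map_pow, aeval_X]
  have h2 : aeval ζ P = 0 := by
    rw [hP, ← hr, sub_eq_zero, ← Finset.sum_filter_ne_zero Finset.univ (f := z)]
    exact Finset.sum_congr rfl fun i hi => (ha i (Finset.mem_filter.1 hi).2).symm
  have h3 : minpoly ℚ ζ ∣ P := minpoly.dvd ℚ ζ h2
  have h4 : aeval (ζ ^ k) P = 0 := by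
    have hprim' : IsPrimitiveRoot (ζ ^ k) N := hprim.pow_of_coprime k hk
    rw [← cyclotomic_eq_minpoly_rat hprim hN, cyclotomic_eq_minpoly_rat hprim' hN] at h3
    obtain ⟨Q, hQ⟩ := h3
    rw [hQ, map_mul, minpoly.aeval, zero_mul]
  rw [hP, sub_eq_zero] at h4
  rw [← h4, ← Finset.sum_filter_ne_zero Finset.univ (f := fun i => z i ^ k)]
  have h5 : Finset.univ.filter (fun i => z i ^ k ≠ 0) = Finset.univ.filter (fun i => z i ≠ 0) := by
    ext i
    simp only [Finset.mem_filter, Finset.mem_univ, true_and]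
    rw [not_iff_not, pow_eq_zero_iff hk0]
  rw [h5]
  refine Finset.sum_congr rfl fun i hi => ?_
  conv_lhs => rw [ha i (Finset.mem_filter.1 hi).2]
  rw [← pow_mul, ← pow_mul, mul_comm]

section
variable {G : Type} [Group G] [Finite G] {V : Type} [AddCommGroup V] [Module ℂ V]
  [FiniteDimensional ℂ V]

lemma ratCls_of_trace (ρ : Representation ℂ G V) (χ : G → ℚ)
    (hχ : ∀ g, LinearMap.trace ℂ V (ρ g) = (χ g : ℂ)) : RatCls χ where
  conj g x := by
    have h : (χ (x * g * x⁻¹) : ℂ) = χ g := by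
      rw [← hχ, ← hχ, map_mul, LinearMap.trace_mul_comm, ← map_mul, ← mul_assoc, inv_mul_cancel,
        one_mul]
    exact_mod_cast h
  pow g k hk := by
    by_cases hk0 : k = 0
    · subst hk0
      have h1 : orderOf g = 1 := by simpa using hk
      rw [orderOf_eq_one_iff] at h1
      rw [h1, one_pow]
    · have hN : 0 < orderOf g := orderOf_pos g
      have hf : (ρ g) ^ (orderOf g + 1) = ρ g := by
        rw [← map_pow, pow_succ, pow_orderOf_eq_one, one_mul]
      obtain ⟨ι, _, z, hz, hp⟩ := exists_diag (ρ g) hN hf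
      have h1 := (hp X).1
      rw [aeval_X, hχ] at h1
      simp only [eval_X] at h1
      have h2 := (hp (X ^ k)).1
      rw [map_pow, aeval_X, ← map_pow, hχ] at h2
      simp only [eval_pow, eval_X] at h2
      have h3 := sum_pow_eq hN hz h1.symm hk.symm hk0
      rw [h3] at h2
      exact_mod_cast h2

end

end Pool.Agent.K7.H70.EQ
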