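import Pool.Agent.K7.H70.EQ.Loc2
import Pool.Agent.K7.H70.EQ.Rat

/-!
# The operator of the Frobenius on the invariants of the inertia group
-/

set_option autoImplicit false

namespace Pool.Agent.K7.H70.EQ

open scoped Pointwise Classical

section
variable {G : Type} [Group G] [Fintype G] {V : Type} [AddCommGroup V] [Module ℂ V]

/-- the average of the operators `ρ ((g i)⁻¹)`, `i` in the subgroup -/
noncomputable def avg (ρ : Representation ℂ G V) (I : Subgroup G) (g : G) : Module.End ℂ V :=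
  ((Nat.card I : ℂ))⁻¹ • ∑ i : I, ρ ((g * i)⁻¹)

lemma avg_mul (ρ : Representation ℂ G V) (I : Subgroup G) {a b : G}
    (ha : ∀ i ∈ I, a⁻¹ * i * a ∈ I) : avg ρ I a * avg ρ I b = avg ρ I (b * a) := by
  have hI0 : (Nat.card I : ℂ) ≠ 0 := by exact_mod_cast Nat.card_pos.ne'
  unfold avg
  rw [smul_mul_smul_comm, Finset.sum_mul_sum, Finset.sum_comm]
  have h1 : ∀ j : I, ∑ i : I, ρ ((a * (i : G))⁻¹) * ρ ((b * (j : G))⁻¹) =
      ∑ i : I, ρ ((b * a * (i : G))⁻¹) := by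
    intro j
    refine Fintype.sum_equiv (Equiv.mulLeft (⟨a⁻¹ * (j : G) * a, ha _ j.2⟩ : I)) _ _ fun i => ?_
    rw [← map_mul]
    congr 1
    show (a * (i : G))⁻¹ * (b * (j : G))⁻¹ = (b * a * ((a⁻¹ * (j : G) * a) * (i : G)))⁻¹
    group
  rw [Finset.sum_congr rfl fun j _ => h1 j, Finset.sum_const, Finset.card_univ,
    ← Nat.card_eq_fintype_card, ← Nat.cast_smul_eq_nsmul ℂ, smul_smul]
  congr 1
  field_simp

lemma avg_pow (ρ : Representation ℂ G V) (I : Subgroup G) {φ : G}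
    (hφ : ∀ i ∈ I, φ⁻¹ * i * φ ∈ I) (m : ℕ) : avg ρ I φ ^ (m + 1) = avg ρ I (φ ^ (m + 1)) := by
  induction m with
  | zero => rw [zero_add, pow_one, pow_one]
  | succ m ih => rw [pow_succ', ih, avg_mul ρ I hφ, ← pow_succ]

lemma avg_fin (ρ : Representation ℂ G V) (I : Subgroup G) {φ : G}
    (hφ : ∀ i ∈ I, φ⁻¹ * i * φ ∈ I) : avg ρ I φ ^ (orderOf φ + 1) = avg ρ I φ := by
  rw [avg_pow ρ I hφ, pow_succ, pow_orderOf_eq_one, one_mul]

lemma fixN_inv (H : Subgroup G) (g : G) : fixN H g⁻¹ = fixN H g := by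
  refine Nat.card_congr (Equiv.subtypeEquivRight fun y => ?_)
  rw [inv_smul_eq_iff]
  exact eq_comm

/-- the trace of a power -/
lemma trace_avg [FiniteDimensional ℂ V] (ρ : Representation ℂ G V) (I : Subgroup G) {φ : G}
    (hφ : ∀ i ∈ I, φ⁻¹ * i * φ ∈ I) {χ : G → ℚ}
    (hχ : ∀ g, LinearMap.trace ℂ V (ρ g) = (χ g : ℂ)) [Fintype (Subgroup G)] {m0 : ℕ}
    {n : Subgroup G → ℤ} (hn : ∀ g, (m0 : ℚ) * χ g = ∑ H, (n H : ℚ) * (fixN H g : ℚ)) (m : ℕ) :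
    (m0 : ℂ) * LinearMap.trace ℂ V (avg ρ I φ ^ (m + 1)) =
      ∑ H, (n H : ℂ) * ((Nat.card I : ℂ)⁻¹ * ((∑ i : I, fixN H (φ ^ (m + 1) * i) : ℕ) : ℂ)) := by
  rw [avg_pow ρ I hφ]
  unfold avg
  rw [map_smul, map_sum, smul_eq_mul]
  have h1 : ∀ g : G, (m0 : ℂ) * LinearMap.trace ℂ V (ρ g⁻¹) =
      ∑ H, (n H : ℂ) * (fixN H g : ℂ) := by
    intro g
    rw [hχ]
    have := hn g⁻¹
    simp only [fixN_inv] at this
    exact_mod_cast congrArg (fun x : ℚ => (x : ℂ)) this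
  have h2 : (m0 : ℂ) * ((Nat.card I : ℂ)⁻¹ * ∑ i : I,
      LinearMap.trace ℂ V (ρ ((φ ^ (m + 1) * (i : G))⁻¹))) =
      (Nat.card I : ℂ)⁻¹ * ∑ i : I, ((m0 : ℂ) *
        LinearMap.trace ℂ V (ρ ((φ ^ (m + 1) * (i : G))⁻¹))) := by
    rw [← Finset.mul_sum]
    ring
  rw [h2]
  simp_rw [h1]
  rw [Finset.sum_comm, Finset.mul_sum]
  refine Finset.sum_congr rfl fun H _ => ?_
  rw [← Finset.mul_sum]
  push_cast
  ring

end

section
variable {S G : Type} [CommRing S] [Group G] [MulSemiringAction G S] {Q : Ideal S} {q : ℕ} {φ : G}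

lemma frob_mem_iff [Q.IsPrime] (hq : q ≠ 0) (hφ : ∀ x : S, φ • x - x ^ q ∈ Q) {x : S} :
    φ • x ∈ Q ↔ x ∈ Q := by
  constructor
  · intro h
    have h1 : x ^ q ∈ Q := by
      have := Q.sub_mem h (hφ x)
      rwa [sub_sub_cancel] at this
    exact Ideal.IsPrime.mem_of_pow_mem inferInstance q h1
  · intro h
    have h1 : x ^ q ∈ Q := Q.pow_mem_of_mem h q (Nat.pos_of_ne_zero hq)
    have := Q.add_mem (hφ x) h1
    rwa [sub_add_cancel] at this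

lemma frob_conj [Q.IsPrime] (hq : q ≠ 0) (hφ : ∀ x : S, φ • x - x ^ q ∈ Q) :
    ∀ i ∈ Q.inertia G, φ⁻¹ * i * φ ∈ Q.inertia G := by
  intro i hi x
  show (φ⁻¹ * i * φ) • x - x ∈ Q
  rw [← frob_mem_iff hq hφ, smul_sub, mul_smul, mul_smul, smul_inv_smul]
  exact hi (φ • x)

lemma frob_set [Q.IsPrime] (hq : q ≠ 0) (hφ : ∀ x : S, φ • x - x ^ q ∈ Q) (ψ : G) :
    (∀ x : S, ψ • x - x ^ q ∈ Q) ↔ φ⁻¹ * ψ ∈ Q.inertia G := by
  constructor
  · intro h x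
    show (φ⁻¹ * ψ) • x - x ∈ Q
    rw [← frob_mem_iff hq hφ, smul_sub, mul_smul, smul_inv_smul]
    have := Q.sub_mem (h x) (hφ x)
    rwa [sub_sub_sub_cancel_right] at this
  · intro h x
    have h1 : (φ⁻¹ * ψ) • x - x ∈ Q := h x
    rw [← frob_mem_iff hq hφ, smul_sub, mul_smul, smul_inv_smul] at h1
    have := Q.add_mem h1 (hφ x)
    rwa [sub_add_sub_cancel] at this

/-- the average over all the Frobenius elements -/
lemma sum_frob [Fintype G] [Q.IsPrime] (hq : q ≠ 0) (hφ : ∀ x : S, φ • x - x ^ q ∈ Q) {V : Type}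
    [AddCommGroup V] [Module ℂ V] (ρ : Representation ℂ G V) :
    ((Nat.card {ψ : G // ∀ x : S, ψ • x - x ^ q ∈ Q} : ℂ))⁻¹ •
      ∑ ψ : {ψ : G // ∀ x : S, ψ • x - x ^ q ∈ Q}, ρ (ψ : G)⁻¹ = avg ρ (Q.inertia G) φ := by
  let e : Q.inertia G ≃ {ψ : G // ∀ x : S, ψ • x - x ^ q ∈ Q} :=
    { toFun := fun i => ⟨φ * i, (frob_set hq hφ _).2 (by rw [inv_mul_cancel_left]; exact i.2)⟩
      invFun := fun ψ => ⟨φ⁻¹ * ψ, (frob_set hq hφ _).1 ψ.2⟩
      left_inv := fun i => Subtype.ext (inv_mul_cancel_left _ _)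
      right_inv := fun ψ => Subtype.ext (mul_inv_cancel_left _ _) }
  unfold avg
  rw [Nat.card_congr e]
  congr 1
  exact (Fintype.sum_equiv e _ _ fun i => rfl).symm

end

end Pool.Agent.K7.H70.EQ
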