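import Mathlib

/-!
# Continuation of a root of a product of meromorphic functions to the point one
-/

set_option autoImplicit false

namespace Pool.Agent.K7.H70.EQ

open Complex Filter Topology

/-- the half plane of convergence -/
def HH : Set ℂ := {s : ℂ | (3 / 2 : ℝ) < s.re}

lemma isOpen_HH : IsOpen HH := isOpen_lt continuous_const Complex.continuous_re

lemma convex_HH : Convex ℝ HH := convex_halfSpace_re_gt (3 / 2)

lemma two_mem : (2 : ℂ) ∈ HH := by
  show (3 / 2 : ℝ) < (2 : ℂ).re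
  norm_num

lemma const_of_exp {S : Set ℂ} (hS : IsPreconnected S) {g h : ℂ → ℂ} (hg : ContinuousOn g S)
    (hh : ContinuousOn h S) (he : ∀ s ∈ S, exp (g s) = exp (h s)) {s0 : ℂ} (hs0 : s0 ∈ S) :
    ∀ s ∈ S, g s = h s + (g s0 - h s0) := by
  have hpi : (2 * Real.pi * I : ℂ) ≠ 0 := Complex.two_pi_I_ne_zero
  have hk : ∀ s ∈ S, ∃ k : ℤ, g s - h s = k * (2 * Real.pi * I) := by
    intro s hs
    obtain ⟨k, hk⟩ := Complex.exp_eq_exp_iff_exists_int.1 (he s hs)
    exact ⟨k, by rw [hk]; ring⟩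
  have hT : IsDiscrete (Set.range ((↑) : ℤ → ℝ)) :=
    Int.isClosedEmbedding_coe_real.isInducing.isDiscrete_range
  have hF : ContinuousOn (fun s => ((g s - h s) / (2 * Real.pi * I)).re) S :=
    Complex.continuous_re.comp_continuousOn ((hg.sub hh).div_const _)
  have hm : Set.MapsTo (fun s => ((g s - h s) / (2 * Real.pi * I)).re) S
      (Set.range ((↑) : ℤ → ℝ)) := by
    intro s hs
    obtain ⟨k, hk⟩ := hk s hs
    refine ⟨k, ?_⟩
    show (k : ℝ) = ((g s - h s) / (2 * Real.pi * I)).re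
    rw [hk, mul_div_cancel_right₀ _ hpi, Complex.intCast_re]
  intro s hs
  have h1 : ((g s - h s) / (2 * Real.pi * I)).re = ((g s0 - h s0) / (2 * Real.pi * I)).re :=
    hS.constant_of_mapsTo hT hF hm hs hs0
  obtain ⟨k, hk1⟩ := hk s hs
  obtain ⟨k0, hk0⟩ := hk s0 hs0
  rw [hk1, hk0, mul_div_cancel_right₀ _ hpi, mul_div_cancel_right₀ _ hpi, Complex.intCast_re,
    Complex.intCast_re] at h1
  have h2 : (k : ℂ) = k0 := by exact_mod_cast h1
  rw [hk0, ← h2, ← hk1]
  ring

/-- a continuous logarithm of an analytic function is analytic -/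
lemma an_log {g R : ℂ → ℂ} {U : Set ℂ} (hU : IsOpen U) (hg : ContinuousOn g U)
    (hR : AnalyticOnNhd ℂ R U) (he : ∀ s ∈ U, exp (g s) = R s) : AnalyticOnNhd ℂ g U := by
  intro z hz
  have hR0 : R z ≠ 0 := by rw [← he z hz]; exact exp_ne_zero _
  have ha : AnalyticAt ℂ (fun s => R s / R z) z := (hR z hz).div analyticAt_const hR0
  have hs : R z / R z ∈ slitPlane := by rw [div_self hR0]; exact one_mem_slitPlane
  have hl : AnalyticAt ℂ (fun s => log (R s / R z) + g z) z := (ha.clog hs).add analyticAt_const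
  -- a ball on which everything is defined
  have h1 : ∀ᶠ s in 𝓝 z, R s / R z ∈ slitPlane :=
    ha.continuousAt.preimage_mem_nhds (isOpen_slitPlane.mem_nhds hs)
  have h2' : ∀ᶠ s in 𝓝 z, s ∈ U := hU.mem_nhds hz
  have h2 : ∀ᶠ s in 𝓝 z, s ∈ U ∧ R s / R z ∈ slitPlane := h2'.and h1
  obtain ⟨r, hr, hball⟩ := Metric.eventually_nhds_iff_ball.1 h2
  have hc1 : ContinuousOn g (Metric.ball z r) := hg.mono fun s hs => (hball s hs).1
  have hc2 : ContinuousOn (fun s => log (R s / R z) + g z) (Metric.ball z r) := by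
    refine ContinuousOn.add (ContinuousOn.clog ?_ fun s hs => (hball s hs).2) continuousOn_const
    exact ContinuousOn.div_const (fun s hs => (hR s (hball s hs).1).continuousAt.continuousWithinAt) _
  have h3 := const_of_exp (convex_ball z r).isPreconnected hc1 hc2 (fun s hs => by
    have hs1 := (hball s hs).1
    have hRs : R s ≠ 0 := by rw [← he s hs1]; exact exp_ne_zero _
    rw [exp_add, exp_log (div_ne_zero hRs hR0), he s hs1, he z hz, div_mul_cancel₀ _ hR0])
    (Metric.mem_ball_self hr)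
  refine hl.congr ?_
  filter_upwards [Metric.ball_mem_nhds z hr] with s hs
  rw [h3 s hs, div_self hR0, log_one]
  ring

/-- the set where a meromorphic function is analytic and not zero -/
lemma good_set {f : ℂ → ℂ} (hf : MeromorphicOn f Set.univ) (h1 : AnalyticAt ℂ f 1)
    (h0 : f 1 ≠ 0) : IsOpen {z | AnalyticAt ℂ f z ∧ f z ≠ 0} ∧
      {z | AnalyticAt ℂ f z ∧ f z ≠ 0}ᶜ.Countable := by
  constructor
  · rw [isOpen_iff_mem_nhds]
    rintro z ⟨hz1, hz2⟩
    have h2 : ∀ᶠ s in 𝓝 z, AnalyticAt ℂ f s := (isOpen_analyticAt ℂ f).mem_nhds hz1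
    have h3 : ∀ᶠ s in 𝓝 z, f s ≠ 0 := hz1.continuousAt.eventually_ne hz2
    exact h2.and h3
  · have hm : Meromorphic f := fun z => hf z (Set.mem_univ z)
    have hm' : Meromorphic f⁻¹ := fun z => (hf z (Set.mem_univ z)).inv
    have hsub : {z | AnalyticAt ℂ f z ∧ f z ≠ 0}ᶜ ⊆
        {z | AnalyticAt ℂ f z}ᶜ ∪ {z | AnalyticAt ℂ f⁻¹ z}ᶜ := by
      intro z hz
      by_contra hcon
      rw [Set.mem_union, not_or, Set.notMem_compl_iff, Set.notMem_compl_iff] at hcon
      obtain ⟨ha, hb⟩ := hcon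
      apply hz
      refine ⟨ha, fun hz0 => ?_⟩
      have ha' : AnalyticAt ℂ f z := ha
      have hb' : AnalyticAt ℂ f⁻¹ z := hb
      rcases ha'.eventually_eq_zero_or_eventually_ne_zero with h | h
      · have h4 : meromorphicOrderAt f z = ⊤ := by
          rw [meromorphicOrderAt_eq_top_iff]
          exact h.filter_mono nhdsWithin_le_nhds
        have h5 : meromorphicOrderAt f 1 ≠ ⊤ := by
          intro h5
          rw [meromorphicOrderAt_eq_top_iff] at h5
          have h6 : ∀ᶠ s in 𝓝 (1 : ℂ), f s ≠ 0 := h1.continuousAt.eventually_ne h0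
          obtain ⟨s, hs1, hs2⟩ := ((h6.filter_mono nhdsWithin_le_nhds).and h5).exists
          exact hs1 hs2
        exact hf.meromorphicOrderAt_ne_top_of_isPreconnected isPreconnected_univ (Set.mem_univ 1)
          (Set.mem_univ z) h5 h4
      · have h4 : Tendsto (fun s => f s * f⁻¹ s) (𝓝[≠] z) (𝓝 (f z * f⁻¹ z)) :=
          (ha'.continuousAt.mul hb'.continuousAt).tendsto.mono_left nhdsWithin_le_nhds
        have h5 : Tendsto (fun s => f s * f⁻¹ s) (𝓝[≠] z) (𝓝 1) := by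
          refine Tendsto.congr' ?_ tendsto_const_nhds
          filter_upwards [h] with s hs
          rw [Pi.inv_apply, mul_inv_cancel₀ hs]
        have h6 := tendsto_nhds_unique h4 h5
        rw [hz0, zero_mul] at h6
        exact zero_ne_one h6
    exact (hm.countable_compl_analyticAt.union hm'.countable_compl_analyticAt).mono hsub

/-- an open star-convex set around the half plane and the point one, which avoids a countable set -/
lemma exists_star {W : Set ℂ} (hW : IsOpen W) (hc : Wᶜ.Countable) (h1 : (1 : ℂ) ∈ W)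
    (hH : HH ⊆ W) : ∃ (U : Set ℂ) (p : ℂ), IsOpen U ∧ p ∈ U ∧ StarConvex ℝ p U ∧ HH ⊆ U ∧
      (1 : ℂ) ∈ U ∧ U ⊆ W := by
  have h2 : ((fun z : ℂ => z.im / (z.re - 1)) '' Wᶜ).Countable := hc.image _
  obtain ⟨t, ht⟩ : ∃ t : ℝ, t ∉ (fun z : ℂ => z.im / (z.re - 1)) '' Wᶜ :=
    (h2.dense_compl ℝ).nonempty
  set p : ℂ := 2 + t * I with hp
  have hpH : p ∈ HH := by
    show (3 / 2 : ℝ) < (2 + t * I : ℂ).re
    simp
    norm_num
  have hseg : segment ℝ (1 : ℂ) p ⊆ W := by
    rintro z ⟨a, b, ha, hb, hab, rfl⟩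
    by_contra hz
    apply ht
    by_cases hb0 : b = 0
    · exfalso
      apply hz
      have : a = 1 := by linarith
      rw [hb0, this, one_smul, zero_smul, add_zero]
      exact h1
    · refine ⟨_, hz, ?_⟩
      have e1 : (a • (1 : ℂ) + b • p).im = b * t := by
        simp [hp]
      have e2 : (a • (1 : ℂ) + b • p).re = a + b * 2 := by
        simp [hp]
      show (a • (1 : ℂ) + b • p).im / ((a • (1 : ℂ) + b • p).re - 1) = t
      rw [e1, e2]
      have : a + b * 2 - 1 = b := by linarith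
      rw [this]
      field_simp
  have hcomp : IsCompact (segment ℝ (1 : ℂ) p) := by
    rw [segment_eq_image_lineMap]
    exact isCompact_Icc.image (AffineMap.lineMap_continuous)
  obtain ⟨δ, hδ, hsub⟩ := hcomp.exists_thickening_subset_open hW hseg
  have hpT : p ∈ Metric.thickening δ (segment ℝ (1 : ℂ) p) :=
    Metric.self_subset_thickening hδ _ (right_mem_segment ℝ 1 p)
  refine ⟨Metric.thickening δ (segment ℝ (1 : ℂ) p) ∪ HH, p,
    Metric.isOpen_thickening.union isOpen_HH, Or.inr hpH, ?_, Set.subset_union_right,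
    Or.inl (Metric.self_subset_thickening hδ _ (left_mem_segment ℝ 1 p)),
    Set.union_subset hsub hH⟩
  exact ((((convex_segment (𝕜 := ℝ) (1 : ℂ) p).thickening δ).starConvex hpT).union
    (convex_HH.starConvex hpH))

/-- **Continuation of a root.** -/
theorem cont_root {ι : Type} [Fintype ι] {f Λ : ι → ℂ → ℂ} {n : ι → ℤ} {m : ℕ} (hm : 0 < m)
    {Λ0 : ℂ → ℂ} (hf : ∀ i, MeromorphicOn (f i) Set.univ) (h1 : ∀ i, AnalyticAt ℂ (f i) 1)
    (h0 : ∀ i, f i 1 ≠ 0) (han : ∀ i, AnalyticOnNhd ℂ (f i) HH)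
    (he : ∀ i, ∀ s ∈ HH, f i s = exp (Λ i s))
    (hc : ContinuousOn Λ0 HH) (hΛ : ∀ s ∈ HH, (m : ℂ) * Λ0 s = ∑ i, (n i : ℂ) * Λ i s) :
    ∃ (U : Set ℂ) (Φ : ℂ → ℂ), IsOpen U ∧ IsConnected U ∧ HH ⊆ U ∧ (1 : ℂ) ∈ U ∧
      AnalyticOnNhd ℂ Φ U ∧ (∀ s ∈ HH, Φ s = exp (Λ0 s)) ∧ Φ 1 ≠ 0 ∧
      ∃ R : ℂ → ℂ, MeromorphicOn R Set.univ ∧ AnalyticAt ℂ R 1 ∧ R 1 ≠ 0 ∧
        ∀ s ∈ HH, R s = exp (Λ0 s) ^ m := by
  set W : Set ℂ := ⋂ i, {z | AnalyticAt ℂ (f i) z ∧ f i z ≠ 0} with hW
  have hWo : IsOpen W := isOpen_iInter_of_finite fun i => (good_set (hf i) (h1 i) (h0 i)).1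
  have hWc : Wᶜ.Countable := by
    rw [hW, Set.compl_iInter]
    exact Set.countable_iUnion fun i => (good_set (hf i) (h1 i) (h0 i)).2
  have hW1 : (1 : ℂ) ∈ W := Set.mem_iInter.2 fun i => ⟨h1 i, h0 i⟩
  have hWH : HH ⊆ W := fun s hs => Set.mem_iInter.2 fun i =>
    ⟨han i s hs, by rw [he i s hs]; exact exp_ne_zero _⟩
  obtain ⟨U, p, hUo, hpU, hstar, hHU, h1U, hUW⟩ := exists_star hWo hWc hW1 hWH
  have hctr : ContractibleSpace U := hstar.contractibleSpace ⟨p, hpU⟩
  have hsc : IsSimplyConnected U := by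
    show SimplyConnectedSpace U
    infer_instance
  have hconn : IsConnected U := hsc.isPathConnected.isConnected
  let R : ℂ → ℂ := fun s => ∏ i, f i s ^ n i
  have hRan : AnalyticOnNhd ℂ R U := by
    intro z hz
    have hz' := Set.mem_iInter.1 (hUW hz)
    exact Finset.analyticAt_fun_prod _ fun i _ => (hz' i).1.fun_zpow (hz' i).2
  have hR0 : ∀ z ∈ U, R z ≠ 0 := by
    intro z hz
    have hz' := Set.mem_iInter.1 (hUW hz)
    exact Finset.prod_ne_zero_iff.2 fun i _ => zpow_ne_zero _ (hz' i).2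
  have hRe : ∀ s ∈ HH, R s = exp (m * Λ0 s) := by
    intro s hs
    rw [hΛ s hs, Complex.exp_sum]
    refine Finset.prod_congr rfl fun i _ => ?_
    rw [he i s hs, ← Complex.exp_int_mul]
  obtain ⟨g, hgc, hge⟩ := exists_continuousOn_eqOn_exp_comp hsc hUo
    (g := R) (fun z hz => (hRan z hz).continuousAt.continuousWithinAt)
    (by rintro ⟨z, hz, hz0⟩; exact hR0 z hz hz0)
  have hge' : ∀ s ∈ U, exp (g s) = R s := fun s hs => hge hs
  have hga := an_log hUo hgc hRan hge'
  have hcst := const_of_exp convex_HH.isPreconnected (hgc.mono hHU)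
    (h := fun s => m * Λ0 s) (continuousOn_const.mul hc) (fun s hs => by
      rw [hge' s (hHU hs), hRe s hs]) two_mem
  have hm0 : (m : ℂ) ≠ 0 := by exact_mod_cast hm.ne'
  refine ⟨U, fun s => exp ((g s - (g 2 - m * Λ0 2)) / m), hUo, hconn, hHU, h1U, ?_, ?_,
    exp_ne_zero _, R, ?_, hRan 1 h1U, hR0 1 h1U, ?_⟩
  · intro z hz
    exact (((hga z hz).sub analyticAt_const).div analyticAt_const hm0).cexp
  · intro s hs
    show exp ((g s - (g 2 - m * Λ0 2)) / m) = exp (Λ0 s)
    rw [hcst s hs, add_sub_cancel_right, mul_div_cancel_left₀ _ hm0]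
  · intro z _
    exact MeromorphicAt.fun_prod fun i _ => (hf i z (Set.mem_univ z)).fun_zpow (n i)
  · intro s hs
    rw [hRe s hs, Complex.exp_nat_mul]

end Pool.Agent.K7.H70.EQ
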