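import Mathlib

/-!
# Traces and determinants of the powers of an operator of finite order
-/

set_option autoImplicit false

namespace Pool.Agent.K7.H70.EQ

open Polynomial

section
variable {V : Type} [AddCommGroup V] [Module ℂ V] [FiniteDimensional ℂ V]

lemma sqf {N : ℕ} (hN : 0 < N) : Squarefree (X * (X ^ N - 1) : ℂ[X]) := by
  have h1 : (X ^ N - 1 : ℂ[X]).Separable :=
    X_pow_sub_one_separable_iff.2 (by exact_mod_cast hN.ne')
  have h2 : IsCoprime (X : ℂ[X]) (X ^ N - 1) := by
    refine ⟨X ^ (N - 1), -1, ?_⟩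
    have : (X : ℂ[X]) ^ (N - 1) * X = X ^ N := by
      rw [← pow_succ]
      congr 1
      omega
    rw [this]
    ring
  exact (separable_X.mul h1 h2).squarefree

lemma exists_diag (f : Module.End ℂ V) {N : ℕ} (hN : 0 < N) (hf : f ^ (N + 1) = f) :
    ∃ (ι : Type) (_ : Fintype ι) (z : ι → ℂ), (∀ i, z i = 0 ∨ z i ^ N = 1) ∧
      ∀ p : ℂ[X], LinearMap.trace ℂ V (aeval f p) = ∑ i, p.eval (z i) ∧
        LinearMap.det (aeval f p) = ∏ i, p.eval (z i) := by
  classical
  have hss : f.IsSemisimple := by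
    refine Module.End.isSemisimple_of_squarefree_aeval_eq_zero (sqf hN) ?_
    rw [map_mul, map_sub, map_pow, aeval_X, map_one, mul_sub, ← pow_succ', mul_one, hf, sub_self]
  have htop := hss.iSup_eigenspace_eq_top
  have hind := f.eigenspaces_iSupIndep
  have hint := DirectSum.isInternal_submodule_of_iSupIndep_of_iSup_eq_top hind htop
  let v := fun μ : ℂ => Module.finBasis ℂ (f.eigenspace μ)
  let b := hint.collectedBasis v
  have hbv : ∀ a, f (b a) = a.1 • b a := by
    intro a
    have h := hint.collectedBasis_mem v a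
    exact Module.End.mem_eigenspace_iff.1 h
  have : Fintype (Σ μ : ℂ, Fin (Module.finrank ℂ (f.eigenspace μ))) :=
    Module.Basis.fintypeIndexOfRankLtAleph0 b (Module.rank_lt_aleph0 ℂ V)
  have hpv : ∀ (p : ℂ[X]) a, (aeval f p) (b a) = (p.eval a.1) • b a := by
    intro p a
    have hev : f.HasEigenvector a.1 (b a) :=
      ⟨Module.End.mem_eigenspace_iff.2 (hbv a), b.ne_zero a⟩
    exact Module.End.aeval_apply_of_hasEigenvector hev
  have hmat : ∀ p : ℂ[X], LinearMap.toMatrix b b (aeval f p) =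
      Matrix.diagonal (fun a => p.eval a.1) := by
    intro p
    ext i j
    rw [LinearMap.toMatrix_apply, hpv, map_smul, Finsupp.smul_apply, b.repr_self,
      Matrix.diagonal_apply, Finsupp.single_apply]
    by_cases h : i = j
    · subst h; simp
    · rw [if_neg h, if_neg (fun h' => h h'.symm)]; simp
  refine ⟨(Σ μ : ℂ, Fin (Module.finrank ℂ (f.eigenspace μ))), this, fun a => a.1, fun a => ?_,
    fun p => ⟨?_, ?_⟩⟩
  · have h1 := hpv (X ^ (N + 1)) a
    rw [map_pow, aeval_X, hf, hbv a, eval_pow, eval_X] at h1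
    have h2 : a.1 = a.1 ^ (N + 1) := smul_left_injective ℂ (b.ne_zero a) h1
    by_cases h0 : a.1 = 0
    · exact Or.inl h0
    · right
      have h3 : a.1 * a.1 ^ N = a.1 * 1 := by rw [← pow_succ', ← h2, mul_one]
      exact mul_left_cancel₀ h0 h3
  · rw [LinearMap.trace_eq_matrix_trace ℂ b, hmat, Matrix.trace_diagonal]
  · rw [← LinearMap.det_toMatrix b, hmat, Matrix.det_diagonal]

lemma exp_log {t : ℂ} (ht : ‖t‖ < 1) : HasSum (fun m : ℕ => t ^ (m + 1) / (m + 1)) (-Complex.log (1 - t)) := by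
  have h := Complex.hasSum_taylorSeries_neg_log ht
  have h2 := (hasSum_nat_add_iff' (f := fun n : ℕ => t ^ n / n) 1).2 h
  simp only [Finset.range_one, Finset.sum_singleton, pow_zero, Nat.cast_zero, div_zero, sub_zero] at h2
  refine h2.congr_fun fun m => ?_
  push_cast
  rfl

lemma one_sub_ne {t : ℂ} (ht : ‖t‖ < 1) : 1 - t ≠ 0 := by
  intro h
  have : t = 1 := by linear_combination -h
  rw [this, norm_one] at ht
  exact lt_irrefl _ ht

lemma inv_exp {t : ℂ} (ht : ‖t‖ < 1) : Complex.exp (-Complex.log (1 - t)) = (1 - t)⁻¹ := by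
  rw [Complex.exp_neg, Complex.exp_log (one_sub_ne ht)]

/-- **The determinant in terms of the traces of the powers.** -/
theorem det_exp (f : Module.End ℂ V) {N : ℕ} (hN : 0 < N) (hf : f ^ (N + 1) = f) {a b : ℂ}
    (ha : ‖a‖ < 1) (hb : ‖b‖ < 1) :
    ∃ L : ℂ, HasSum (fun m : ℕ => LinearMap.trace ℂ V (f ^ (m + 1)) * (a ^ (m + 1) + b ^ (m + 1)) /
      (m + 1)) L ∧
      Complex.exp L = (LinearMap.det ((1 : Module.End ℂ V) - (a + b) • f + (a * b) • f ^ 2))⁻¹ := by
  obtain ⟨ι, _, z, hz, hp⟩ := exists_diag f hN hf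
  have hz1 : ∀ i, ‖z i‖ ≤ 1 := by
    intro i
    rcases hz i with h | h
    · rw [h, norm_zero]; exact zero_le_one
    · exact (Complex.norm_eq_one_of_pow_eq_one h hN.ne').le
  have hlt : ∀ (c : ℂ) (_ : ‖c‖ < 1) (i : ι), ‖c * z i‖ < 1 := by
    intro c hc i
    rw [norm_mul]
    calc ‖c‖ * ‖z i‖ ≤ ‖c‖ * 1 := mul_le_mul_of_nonneg_left (hz1 i) (norm_nonneg _)
      _ < 1 := by rw [mul_one]; exact hc
  refine ⟨∑ i, (-Complex.log (1 - a * z i) + -Complex.log (1 - b * z i)), ?_, ?_⟩
  · have h1 := hasSum_sum (s := Finset.univ) fun i _ =>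
      (exp_log (hlt a ha i)).add (exp_log (hlt b hb i))
    refine h1.congr_fun fun m => ?_
    have h2 := (hp (X ^ (m + 1))).1
    rw [map_pow, aeval_X] at h2
    rw [h2, Finset.sum_mul, Finset.sum_div]
    refine Finset.sum_congr rfl fun i _ => ?_
    rw [eval_pow, eval_X, mul_pow, mul_pow]
    ring
  · rw [Complex.exp_sum]
    have h2 := (hp (1 - C (a + b) * X + C (a * b) * X ^ 2)).2
    have e : aeval f (1 - C (a + b) * X + C (a * b) * X ^ 2 : ℂ[X]) =
        (1 : Module.End ℂ V) - (a + b) • f + (a * b) • f ^ 2 := by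
      simp only [map_add, map_sub, map_one, map_mul, map_pow, aeval_X, aeval_C,
        Algebra.algebraMap_eq_smul_one, smul_mul_assoc, one_mul]
      rw [← add_smul, smul_mul_assoc, one_mul, mul_smul]
    rw [← e, h2, ← Finset.prod_inv_distrib]
    refine Finset.prod_congr rfl fun i _ => ?_
    rw [Complex.exp_add, inv_exp (hlt a ha i), inv_exp (hlt b hb i), ← mul_inv]
    congr 1
    simp only [eval_add, eval_sub, eval_one, eval_mul, eval_C, eval_X, eval_pow]
    ring

end

end Pool.Agent.K7.H70.EQ
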