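import Mathlib

/-!
# The action of the Galois group on the integers and the fixed fields
-/

set_option autoImplicit false

namespace Pool.Agent.K7.H70.EQ

open NumberField

section
variable {K F : Type} [Field K] [NumberField K] [Field F] [NumberField F] [Algebra K F]

instance smulComm_fix (C : Subgroup Gal(F/K)) :
    SMulCommClass C (𝓞 (IntermediateField.fixedField C)) (𝓞 F) where
  smul_comm c t x := by
    apply RingOfIntegers.ext
    rw [Algebra.smul_def, Algebra.smul_def]
    show (c : Gal(F/K)) ((((algebraMap (𝓞 (IntermediateField.fixedField C)) (𝓞 F)) t : 𝓞 F) : F) *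
      (x : F)) = (((algebraMap (𝓞 (IntermediateField.fixedField C)) (𝓞 F)) t : 𝓞 F) : F) *
      (c : Gal(F/K)) (x : F)
    rw [map_mul]
    congr 1
    exact (t : IntermediateField.fixedField C).2 c

instance isInv_fix (C : Subgroup Gal(F/K)) :
    Algebra.IsInvariant (𝓞 (IntermediateField.fixedField C)) (𝓞 F) C where
  isInvariant x hx := by
    have h1 : (x : F) ∈ IntermediateField.fixedField C := by
      intro c
      exact congrArg (fun z : 𝓞 F => (z : F)) (hx c)
    refine ⟨⟨⟨(x : F), h1⟩, ?_⟩, RingOfIntegers.ext rfl⟩
    exact (isIntegral_algHom_iff ((IntermediateField.fixedField C).val.restrictScalars ℤ)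
      Subtype.val_injective).1 x.2

end

end Pool.Agent.K7.H70.EQ
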