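import Pool.Agent.K7.H70.EQ.Art

/-!
# Fixed points of the Frobenius classes and residue fields
-/

set_option autoImplicit false

namespace Pool.Agent.K7.H70.EQ

open scoped Pointwise Classical

section
variable {R T S G : Type} [CommRing R] [CommRing T] [CommRing S] [Algebra R T] [Algebra T S]
  [Algebra R S] [IsScalarTower R T S] [Group G] [MulSemiringAction G S]
  {H : Subgroup G} {Q : Ideal S}

/-- the homomorphism from `T` to the residue field of `Q` defined by `g` -/
def th (T : Type) [CommRing T] [Algebra T S] (Q : Ideal S) (g : G) : T →+* S ⧸ Q :=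
  (Ideal.Quotient.mk Q).comp ((MulSemiringAction.toRingHom G S g).comp (algebraMap T S))

lemma th_apply (g : G) (t : T) : th T Q g t = Ideal.Quotient.mk Q (g • algebraMap T S t) := rfl

lemma fix_T [SMulCommClass H T S] {h : G} (hh : h ∈ H) (t : T) :
    h • algebraMap T S t = algebraMap T S t := by
  have := smul_algebraMap (⟨h, hh⟩ : H) t (A := S)
  exact this

lemma th_mul_right [SMulCommClass H T S] (g : G) {h : G} (hh : h ∈ H) :
    th T Q (g * h) = th T Q g := by
  ext t
  rw [th_apply, th_apply, mul_smul, fix_T hh]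

lemma th_mul_left (g : G) {i : G} (hi : i ∈ Q.inertia G) : th T Q (i * g) = th T Q g := by
  ext t
  rw [th_apply, th_apply, mul_smul, Ideal.Quotient.eq]
  exact hi _

lemma mem_inv {g : G} {x : S} : x ∈ g⁻¹ • Q ↔ g • x ∈ Q := Ideal.mem_inv_pointwise_smul_iff

variable [Finite G]

/-- the fibres of `g ↦ th g` are the double cosets of the inertia group and the group `H` -/
theorem th_eq [SMulCommClass H T S] [Algebra.IsInvariant T S H] [Q.IsPrime] {g g' : G}
    (hgg : th T Q g = th T Q g') : ∃ i ∈ Q.inertia G, ∃ h ∈ H, g' = i * g * h := by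
  have hpt : ∀ t : T, Ideal.Quotient.mk Q (g • algebraMap T S t) =
      Ideal.Quotient.mk Q (g' • algebraMap T S t) := fun t => DFunLike.congr_fun hgg t
  set Q1 : Ideal S := g⁻¹ • Q with hQ1
  set Q2 : Ideal S := g'⁻¹ • Q with hQ2
  have hu : Q1.under T = Q2.under T := by
    ext t
    rw [Ideal.mem_comap, Ideal.mem_comap, hQ1, hQ2, mem_inv, mem_inv,
      ← Ideal.Quotient.eq_zero_iff_mem, ← Ideal.Quotient.eq_zero_iff_mem, hpt]
  obtain ⟨⟨h, hh⟩, hh2⟩ := Algebra.IsInvariant.exists_smul_of_under_eq T S H Q1 Q2 hu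
  have hh3 : Q2 = h • Q1 := hh2
  set d : G := g⁻¹ * g' * h with hd
  have hdQ : d • Q1 = Q1 := by
    rw [hd, mul_smul, mul_smul, ← hh3, hQ2, smul_inv_smul]
  have hdT : ∀ t : T, d • algebraMap T S t - algebraMap T S t ∈ Q1 := by
    intro t
    rw [hQ1, mem_inv, smul_sub, hd, mul_smul, mul_smul, smul_inv_smul, fix_T hh,
      ← Ideal.Quotient.eq, hpt]
  let l0 : (S ⧸ Q1) ≃+* (S ⧸ Q1) := Ideal.quotientEquiv Q1 Q1 (MulSemiringAction.toRingEquiv G S d)
    (by
      conv_lhs => rw [← hdQ]
      rfl)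
  have hl0 : ∀ s, l0 (Ideal.Quotient.mk Q1 s) = Ideal.Quotient.mk Q1 (d • s) := fun s => rfl
  let l : (S ⧸ Q1) ≃ₐ[T ⧸ Q1.under T] (S ⧸ Q1) := AlgEquiv.ofRingEquiv (f := l0) (by
    intro r
    obtain ⟨t, rfl⟩ := Ideal.Quotient.mk_surjective r
    rw [Ideal.Quotient.algebraMap_mk_of_liesOver, hl0, Ideal.Quotient.eq]
    exact hdT t)
  obtain ⟨⟨⟨h', hh'⟩, hst⟩, hh'2⟩ := Ideal.Quotient.stabilizerHom_surjective H (Q1.under T) Q1 l
  have hact : ∀ s : S, h' • s - d • s ∈ Q1 := by
    intro s
    have h1 := DFunLike.congr_fun hh'2 (Ideal.Quotient.mk Q1 s)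
    rw [Ideal.Quotient.stabilizerHom_apply] at h1
    exact Ideal.Quotient.eq.1 h1
  refine ⟨g * (d * h'⁻¹) * g⁻¹, ?_, h' * h⁻¹, H.mul_mem hh' (H.inv_mem hh), ?_⟩
  · intro s
    have h1 := Q1.neg_mem (hact (h'⁻¹ • (g⁻¹ • s)))
    rw [neg_sub, smul_inv_smul] at h1
    have h2 := mem_inv.1 h1
    rw [smul_sub, smul_inv_smul] at h2
    have e : (g * (d * h'⁻¹) * g⁻¹) • s = g • d • h'⁻¹ • g⁻¹ • s := by
      simp only [mul_smul]
    rw [e]
    exact h2
  · rw [hd]
    group

omit [Finite G] in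
/-- the Frobenius power -/
lemma th_frob {q : ℕ} {φ : G} (hφ : ∀ x : S, φ • x - x ^ q ∈ Q) (m : ℕ) (g : G) (t : T) :
    th T Q (φ ^ m * g) t = (th T Q g t) ^ q ^ m := by
  induction m with
  | zero => rw [pow_zero, one_mul, pow_zero, pow_one]
  | succ m ih =>
    rw [pow_succ', mul_assoc, th_apply, mul_smul, Ideal.Quotient.eq.2 (hφ _), map_pow,
      ← th_apply, ih, ← pow_mul, ← pow_succ]

/-- the set of the homomorphisms -/
noncomputable def YY [Fintype G] (T : Type) [CommRing T] [Algebra T S] (Q : Ideal S) :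
    Finset (T →+* S ⧸ Q) := Finset.univ.image fun g : G => th T Q g

variable [Fintype G]

/-- **First step**: the fixed points of the elements of the Frobenius class. -/
theorem sum_fix [SMulCommClass H T S] [Algebra.IsInvariant T S H] [Q.IsPrime] {q : ℕ} {φ : G}
    (hφ : ∀ x : S, φ • x - x ^ q ∈ Q) (m : ℕ) :
    ∑ i : Q.inertia G, fixN H (φ ^ m * i) = Nat.card (Q.inertia G) *
      ((YY (G := G) T Q).filter fun θ => ∀ t, θ t ^ q ^ m = θ t).card := by
  have hfin : Finite (G ⧸ H) := inferInstance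
  have : Fintype (G ⧸ H) := Fintype.ofFinite _
  have hlift : ∀ a b : G, (QuotientGroup.leftRel H) a b → th T Q a = th T Q b := by
    intro a b hab
    rw [QuotientGroup.leftRel_apply] at hab
    have : b = a * (a⁻¹ * b) := by group
    rw [this, th_mul_right a hab]
  let Th : G ⧸ H → (T →+* S ⧸ Q) := fun x => Quotient.liftOn' x (fun g => th T Q g) hlift
  have hTh : ∀ g : G, Th (g : G ⧸ H) = th T Q g := fun g => rfl
  have hThI : ∀ (i : G) (_ : i ∈ Q.inertia G) (x : G ⧸ H), Th (i • x) = Th x := by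
    intro i hi x
    obtain ⟨g, rfl⟩ := QuotientGroup.mk_surjective x
    exact th_mul_left g hi
  have hThφ : ∀ (x : G ⧸ H) (t : T), Th (φ ^ m • x) t = (Th x t) ^ q ^ m := by
    intro x t
    obtain ⟨g, rfl⟩ := QuotientGroup.mk_surjective x
    exact th_frob hφ m g t
  have hfib : ∀ x y : G ⧸ H, Th x = Th y → ∃ i ∈ Q.inertia G, i • x = y := by
    intro x y hxy
    obtain ⟨g, rfl⟩ := QuotientGroup.mk_surjective x
    obtain ⟨g', rfl⟩ := QuotientGroup.mk_surjective y
    obtain ⟨i, hi, h, hh, hg⟩ := th_eq (H := H) hxy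
    refine ⟨i, hi, ?_⟩
    rw [hg]
    have : i • ((g : G) : G ⧸ H) = ((i * g : G) : G ⧸ H) := rfl
    rw [this, QuotientGroup.eq]
    have e : (i * g)⁻¹ * (i * g * h) = h := by group
    rw [e]
    exact hh
  -- the number of the pairs
  have h1 : ∑ i : Q.inertia G, fixN H (φ ^ m * i) =
      ∑ x : G ⧸ H, (Finset.univ.filter fun i : Q.inertia G => (φ ^ m * (i : G)) • x = x).card := by
    have h2 : ∀ i : Q.inertia G, fixN H (φ ^ m * i) =
        ∑ x : G ⧸ H, if (φ ^ m * (i : G)) • x = x then 1 else 0 := by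
      intro i
      unfold fixN
      rw [Nat.card_eq_fintype_card, Fintype.card_subtype, Finset.card_filter]
    simp_rw [h2]
    rw [Finset.sum_comm]
    refine Finset.sum_congr rfl fun x _ => ?_
    rw [Finset.card_filter]
  -- representatives
  let rep : (T →+* S ⧸ Q) → G ⧸ H := fun θ => if h : ∃ x, Th x = θ then h.choose else
    ((1 : G) : G ⧸ H)
  have hrep : ∀ x : G ⧸ H, Th (rep (Th x)) = Th x := by
    intro x
    have h : ∃ y, Th y = Th x := ⟨x, rfl⟩
    show Th (if h : ∃ y, Th y = Th x then h.choose else ((1 : G) : G ⧸ H)) = Th x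
    rw [dif_pos h]
    exact h.choose_spec
  have h2 : ∀ x : G ⧸ H,
      (Finset.univ.filter fun i : Q.inertia G => (φ ^ m * (i : G)) • x = x).card =
      if ∀ t, Th x t ^ q ^ m = Th x t then
        (Finset.univ.filter fun j : Q.inertia G => (j : G) • rep (Th x) = x).card else 0 := by
    intro x
    split_ifs with hc
    · obtain ⟨a, ha, hax⟩ := hfib (rep (Th x)) x (hrep x)
      have h3 : Th (rep (Th x)) = Th ((φ ^ m)⁻¹ • x) := by
        rw [hrep]
        have h4 : ∀ t, Th x t = Th ((φ ^ m)⁻¹ • x) t ^ q ^ m := by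
          intro t
          rw [← hThφ, smul_inv_smul]
        obtain ⟨g, rfl⟩ := QuotientGroup.mk_surjective x
        -- the elements `φ ^ m` of finite order
        have hN : 0 < orderOf φ := orderOf_pos φ
        have h5 : ∀ (k : ℕ) (t : T), Th ((φ ^ m) ^ k • ((g : G) : G ⧸ H)) t =
            Th ((g : G) : G ⧸ H) t := by
          intro k t
          induction k with
          | zero => rw [pow_zero, one_smul]
          | succ k ih => rw [pow_succ', mul_smul, hThφ, ih, hc]
        have h6 : (φ ^ m)⁻¹ = (φ ^ m) ^ (orderOf φ * (m + 1) - 1) := by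
          have h7 : (φ ^ m) ^ (orderOf φ * (m + 1)) = 1 := by
            rw [← pow_mul, mul_comm m, mul_assoc, pow_mul, pow_orderOf_eq_one, one_pow]
          have h8 : 0 < orderOf φ * (m + 1) := by positivity
          rw [inv_eq_iff_mul_eq_one, ← pow_succ', Nat.sub_add_cancel h8, h7]
        ext t
        rw [h6, h5]
      obtain ⟨b, hb, hbx⟩ := hfib _ _ h3
      refine Finset.card_bij' (fun i _ => ⟨a * b⁻¹ * (i : G) * a, ?_⟩)
        (fun j _ => ⟨b * a⁻¹ * (j : G) * a⁻¹, ?_⟩) ?_ ?_ ?_ ?_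
      · exact (Q.inertia G).mul_mem ((Q.inertia G).mul_mem ((Q.inertia G).mul_mem ha
          ((Q.inertia G).inv_mem hb)) i.2) ha
      · exact (Q.inertia G).mul_mem ((Q.inertia G).mul_mem ((Q.inertia G).mul_mem hb
          ((Q.inertia G).inv_mem ha)) j.2) ((Q.inertia G).inv_mem ha)
      · intro i hi
        rw [Finset.mem_filter] at hi ⊢
        refine ⟨Finset.mem_univ _, ?_⟩
        have h4 : (i : G) • x = (φ ^ m)⁻¹ • x := by
          rw [eq_inv_smul_iff, ← mul_smul]
          exact hi.2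
        show (a * b⁻¹ * (i : G) * a) • rep (Th x) = x
        rw [mul_smul, hax, mul_smul, h4, ← hbx, mul_smul, inv_smul_smul, hax]
      · intro j hj
        rw [Finset.mem_filter] at hj ⊢
        refine ⟨Finset.mem_univ _, ?_⟩
        show (φ ^ m * (b * a⁻¹ * (j : G) * a⁻¹)) • x = x
        have h4 : a⁻¹ • x = rep (Th x) := by rw [inv_smul_eq_iff]; exact hax.symm
        rw [mul_smul, mul_smul, h4, mul_smul, hj.2, mul_smul, h4, hbx, smul_inv_smul]
      · intro i _
        apply Subtype.ext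
        show b * a⁻¹ * (a * b⁻¹ * (i : G) * a) * a⁻¹ = i
        group
      · intro j _
        apply Subtype.ext
        show a * b⁻¹ * (b * a⁻¹ * (j : G) * a⁻¹) * a = j
        group
    · rw [Finset.card_eq_zero, Finset.filter_eq_empty_iff]
      intro i _ hi
      apply hc
      intro t
      rw [← hThφ]
      have h4 : Th (φ ^ m • x) = Th x := by
        have h5 : x = (φ ^ m * (i : G)) • x := hi.symm
        -- `i x = φ ^ (-m) x`
        have h6 : (i : G) • x = (φ ^ m)⁻¹ • x := by
          rw [eq_inv_smul_iff, ← mul_smul]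
          exact hi
        have h7 : Th ((φ ^ m)⁻¹ • x) = Th x := by rw [← h6]; exact hThI _ i.2 x
        ext t
        rw [hThφ, ← h7]
        rw [← hThφ, smul_inv_smul, h7]
      rw [h4]
  rw [h1]
  simp_rw [h2]
  -- sum over the homomorphisms
  have h3 : ∀ x : G ⧸ H, Th x ∈ YY (G := G) T Q := by
    intro x
    obtain ⟨g, rfl⟩ := QuotientGroup.mk_surjective x
    exact Finset.mem_image.2 ⟨g, Finset.mem_univ _, rfl⟩
  rw [← Finset.sum_fiberwise_of_maps_to (s := Finset.univ) (t := YY (G := G) T Q) (g := Th)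
    (fun x _ => h3 x)]
  rw [Finset.card_filter, Finset.mul_sum]
  refine Finset.sum_congr rfl fun θ hθ => ?_
  obtain ⟨g, -, hg⟩ := Finset.mem_image.1 hθ
  by_cases hc : ∀ t, θ t ^ q ^ m = θ t
  · rw [if_pos hc, mul_one]
    have h4 : ∀ x ∈ Finset.univ.filter (fun x : G ⧸ H => Th x = θ),
        (if ∀ t, Th x t ^ q ^ m = Th x t then
          (Finset.univ.filter fun j : Q.inertia G => (j : G) • rep (Th x) = x).card else 0) =
        (Finset.univ.filter fun j : Q.inertia G => (j : G) • rep θ = x).card := by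
      intro x hx
      have hx2 := (Finset.mem_filter.1 hx).2
      rw [hx2, if_pos hc]
    rw [Finset.sum_congr rfl h4]
    have h5 : Nat.card (Q.inertia G) = (Finset.univ : Finset (Q.inertia G)).card := by
      rw [Nat.card_eq_fintype_card]; rfl
    rw [h5]
    symm
    refine Finset.card_eq_sum_card_fiberwise (f := fun j : Q.inertia G => (j : G) • rep θ) ?_
    intro j _
    have h6 : Th (rep θ) = θ := by
      have := hrep ((g : G) : G ⧸ H)
      rw [hTh, hg] at this
      exact this
    simp only [Finset.coe_filter, Finset.mem_univ, true_and, Set.mem_ofPred_eq]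
    rw [hThI _ j.2, h6]
  · rw [if_neg hc, mul_zero]
    refine Finset.sum_eq_zero fun x hx => ?_
    have hx2 := (Finset.mem_filter.1 hx).2
    rw [hx2, if_neg hc]

end

end Pool.Agent.K7.H70.EQ
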