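import Pool.Agent.K7.H70.EQ.Loc

/-!
# The number of the embeddings of the residue fields
-/

set_option autoImplicit false

namespace Pool.Agent.K7.H70.EQ

open scoped Pointwise Classical

section fields
variable {k l κ : Type} [Field k] [Field l] [Field κ] [Finite κ] [Algebra k l] [Algebra k κ]

lemma frobH_pow [Fintype k] (L : Type) [Field L] [Algebra k L] (m : ℕ) (x : L) :
    ((FiniteField.frobeniusAlgHom k L) ^ m) x = x ^ Fintype.card k ^ m := by
  induction m generalizing x with
  | zero => rw [pow_zero, pow_zero, pow_one]; rfl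
  | succ m ih =>
    rw [pow_succ, AlgHom.mul_apply, ih, FiniteField.coe_frobeniusAlgHom, ← pow_mul, ← pow_succ']

theorem frob_count (θ : l →ₐ[k] κ) {q : ℕ} (hq : Nat.card k = q) :
    ∃ f : ℕ, 0 < f ∧ Nat.card l = q ^ f ∧
      (∀ θ' : l →ₐ[k] κ, ∃ j < f, ∀ x, θ' x = (θ x) ^ q ^ j) ∧
      (∀ m, (∀ x, θ x ^ q ^ m = θ x) ↔ f ∣ m) ∧
      ∀ (j : ℕ) (x y : κ), x ^ q ^ j = y ^ q ^ j → x = y := by
  have hl : Finite l := Finite.of_injective θ θ.injective
  have hk : Finite k := Finite.of_injective _ (algebraMap k κ).injective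
  have : Fintype k := Fintype.ofFinite k
  have hfd : Module.Finite k l := Module.Finite.of_finite
  have hq' : Fintype.card k = q := by rw [← hq, Nat.card_eq_fintype_card]
  have hinj : ∀ (j : ℕ) (x y : κ), x ^ q ^ j = y ^ q ^ j → x = y := by
    intro j x y h
    have h1 := frobH_pow (k := k) κ j x
    have h2 := frobH_pow (k := k) κ j y
    rw [hq'] at h1 h2
    rw [← h1, ← h2] at h
    exact (((FiniteField.frobeniusAlgHom k κ) ^ j).toRingHom.injective) h
  have hfix : ∀ m, (∀ x, θ x ^ q ^ m = θ x) ↔ Module.finrank k l ∣ m := by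
    intro m
    rw [← FiniteField.orderOf_frobeniusAlgHom k l, orderOf_dvd_iff_pow_eq_one]
    constructor
    · intro h
      ext x
      rw [frobH_pow, hq']
      have h1 : θ (x ^ q ^ m) = θ x := by rw [map_pow, h]
      exact θ.injective h1
    · intro h x
      have h1 := DFunLike.congr_fun h x
      rw [frobH_pow, hq'] at h1
      rw [← map_pow, h1]
      rfl
  refine ⟨Module.finrank k l, Module.finrank_pos, ?_, ?_, hfix, hinj⟩
  · rw [← hq]
    exact Module.natCard_eq_pow_finrank
  · let e : Fin (Module.finrank k l) → (l →ₐ[k] κ) := fun j =>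
      ((FiniteField.frobeniusAlgHom k κ) ^ (j : ℕ)).comp θ
    have he : ∀ j x, e j x = (θ x) ^ q ^ (j : ℕ) := by
      intro j x
      show ((FiniteField.frobeniusAlgHom k κ) ^ (j : ℕ)) (θ x) = _
      rw [frobH_pow, hq']
    have hle : ∀ j j' : Fin (Module.finrank k l), (j : ℕ) ≤ j' → e j = e j' → j = j' := by
      intro j j' hjj h
      have h1 : ∀ x, θ x ^ q ^ ((j' : ℕ) - j) = θ x := by
        intro x
        apply hinj j
        have h2 := DFunLike.congr_fun h x
        rw [he, he] at h2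
        rw [← pow_mul, ← pow_add, Nat.sub_add_cancel hjj, h2]
      have h3 := (hfix _).1 h1
      have h4 : (j' : ℕ) - j = 0 := Nat.eq_zero_of_dvd_of_lt h3 (by omega)
      exact Fin.ext (by omega)
    have hei : Function.Injective e := by
      intro j j' h
      rcases le_total (j : ℕ) j' with hjj | hjj
      · exact hle j j' hjj h
      · exact (hle j' j hjj h.symm).symm
    have hfin : Finite (l →ₐ[k] κ) := Finite.of_injective (fun θ => (θ : l → κ)) DFunLike.coe_injective
    have hb := hei.bijective_of_nat_card_le (by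
      rw [Nat.card_eq_fintype_card (α := Fin _), Fintype.card_fin]
      exact card_algHom_le_finrank k l κ)
    intro θ'
    obtain ⟨j, hj⟩ := hb.2 θ'
    exact ⟨j, j.2, fun x => by rw [← hj, he]⟩

end fields

section
variable {R T S G : Type} [CommRing R] [CommRing T] [CommRing S] [Algebra R T] [Algebra T S]
  [Algebra R S] [IsScalarTower R T S] [Group G] [MulSemiringAction G S]
  {H : Subgroup G} {Q : Ideal S}

lemma th_base [SMulCommClass G R S] (g : G) (r : R) :
    th T Q g (algebraMap R T r) = Ideal.Quotient.mk Q (algebraMap R S r) := by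
  rw [th_apply, ← IsScalarTower.algebraMap_apply, smul_algebraMap]

lemma ker_th_under [SMulCommClass G R S] (g : G) :
    (RingHom.ker (th T Q g)).under R = Q.under R := by
  ext r
  rw [Ideal.mem_comap, RingHom.mem_ker, th_base, Ideal.Quotient.eq_zero_iff_mem, Ideal.mem_comap]

attribute [local instance] Ideal.Quotient.field in
/-- **Second step**: the homomorphisms with a given kernel. -/
theorem card_fib [SMulCommClass G R S] [Q.IsPrime] [Finite (S ⧸ Q)] [Fintype G]
    {φ : G} (hφ : ∀ x : S, φ • x - x ^ Nat.card (R ⧸ Q.under R) ∈ Q) (g0 : G) :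
    ∃ f : ℕ, 0 < f ∧ Nat.card (T ⧸ RingHom.ker (th T Q g0)) = Nat.card (R ⧸ Q.under R) ^ f ∧
      ∀ m : ℕ, ((YY (G := G) T Q).filter fun θ => RingHom.ker θ = RingHom.ker (th T Q g0) ∧
        ∀ t, θ t ^ Nat.card (R ⧸ Q.under R) ^ m = θ t).card = if f ∣ m then f else 0 := by
  set q := Nat.card (R ⧸ Q.under R) with hq
  set u : Ideal T := RingHom.ker (th T Q g0) with hu
  have hQm : Q.IsMaximal := Ideal.Quotient.maximal_of_isField _ (Finite.isField_of_domain (S ⧸ Q))
  have hPp : (Q.under R).IsPrime := inferInstance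
  have hPf : Finite (R ⧸ Q.under R) := .of_injective _ Ideal.algebraMap_quotient_injective
  have hPm : (Q.under R).IsMaximal :=
    Ideal.Quotient.maximal_of_isField _ (Finite.isField_of_domain (R ⧸ Q.under R))
  have hup : u.IsPrime := RingHom.ker_isPrime _
  have huf : Finite (T ⧸ u) := .of_injective _ (RingHom.kerLift_injective (th T Q g0))
  have hum : u.IsMaximal := Ideal.Quotient.maximal_of_isField _ (Finite.isField_of_domain (T ⧸ u))
  have hlo : u.LiesOver (Q.under R) := ⟨(ker_th_under (R := R) g0).symm⟩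
  let bar : ∀ θ : T →+* S ⧸ Q, (∀ r : R, θ (algebraMap R T r) =
      Ideal.Quotient.mk Q (algebraMap R S r)) → RingHom.ker θ = u →
      ((T ⧸ u) →ₐ[R ⧸ Q.under R] (S ⧸ Q)) := fun θ h1 h2 =>
    { Ideal.Quotient.lift u θ (fun a ha => by rw [← h2] at ha; exact RingHom.mem_ker.1 ha) with
      commutes' := fun r => by
        obtain ⟨r, rfl⟩ := Ideal.Quotient.mk_surjective r
        show Ideal.Quotient.lift u θ _ (algebraMap (R ⧸ Q.under R) (T ⧸ u)
          (Ideal.Quotient.mk (Q.under R) r)) = algebraMap (R ⧸ Q.under R) (S ⧸ Q)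
          (Ideal.Quotient.mk (Q.under R) r)
        rw [Ideal.Quotient.algebraMap_mk_of_liesOver, Ideal.Quotient.algebraMap_mk_of_liesOver]
        exact h1 r }
  obtain ⟨f, hf0, hf1, hf2, hf3, hf4⟩ := frob_count (bar (th T Q g0) (th_base g0) rfl) hq.symm
  have hf3' : ∀ m, (∀ t, th T Q g0 t ^ q ^ m = th T Q g0 t) ↔ f ∣ m := by
    intro m
    rw [← hf3]
    constructor
    · intro h x
      obtain ⟨t, rfl⟩ := Ideal.Quotient.mk_surjective x
      exact h t
    · intro h t
      exact h (Ideal.Quotient.mk u t)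
  have hfr : ∀ (j : ℕ) (t : T), th T Q (φ ^ j * g0) t = th T Q g0 t ^ q ^ j := fun j t =>
    th_frob hφ j g0 t
  have hker : ∀ j : ℕ, RingHom.ker (th T Q (φ ^ j * g0)) = u := by
    intro j
    ext t
    rw [RingHom.mem_ker, hfr, hu, RingHom.mem_ker]
    constructor
    · intro h
      exact hf4 j _ _ (by rw [h, zero_pow]; exact pow_ne_zero _ (by rw [hq]; exact Nat.card_pos.ne'))
    · intro h
      rw [h, zero_pow]
      exact pow_ne_zero _ (by rw [hq]; exact Nat.card_pos.ne')
  refine ⟨f, hf0, hf1, fun m => ?_⟩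
  have hall : ∀ θ ∈ YY (G := G) T Q, RingHom.ker θ = u → ∃ j < f, θ = th T Q (φ ^ j * g0) := by
    intro θ hθ hk
    obtain ⟨g, -, rfl⟩ := Finset.mem_image.1 hθ
    obtain ⟨j, hj, hj2⟩ := hf2 (bar (th T Q g) (th_base g) hk)
    refine ⟨j, hj, ?_⟩
    ext t
    have h9 : th T Q g t = th T Q g0 t ^ q ^ j := hj2 (Ideal.Quotient.mk u t)
    rw [h9, hfr]
  split_ifs with hm
  · have e : ((YY (G := G) T Q).filter fun θ => RingHom.ker θ = u ∧ ∀ t, θ t ^ q ^ m = θ t) =
        (Finset.range f).image fun j => th T Q (φ ^ j * g0) := by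
      ext θ
      rw [Finset.mem_filter, Finset.mem_image]
      constructor
      · rintro ⟨h1, h2, h3⟩
        obtain ⟨j, hj, hj2⟩ := hall θ h1 h2
        exact ⟨j, Finset.mem_range.2 hj, hj2.symm⟩
      · rintro ⟨j, -, rfl⟩
        refine ⟨Finset.mem_image.2 ⟨_, Finset.mem_univ _, rfl⟩, hker j, fun t => ?_⟩
        rw [hfr, ← pow_mul, mul_comm, pow_mul, (hf3' m).2 hm]
    rw [e, Finset.card_image_of_injOn, Finset.card_range]
    have hle : ∀ j j' : ℕ, j < f → j' < f → j ≤ j' →
        th T Q (φ ^ j * g0) = th T Q (φ ^ j' * g0) → j = j' := by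
      intro j j' hj hj' hjj h
      have h1 : ∀ t, th T Q g0 t ^ q ^ (j' - j) = th T Q g0 t := by
        intro t
        apply hf4 j
        have h2 := DFunLike.congr_fun h t
        rw [hfr, hfr] at h2
        rw [← pow_mul, ← pow_add, Nat.sub_add_cancel hjj, h2]
      have h3 := (hf3' _).1 h1
      have h4 : j' - j = 0 := Nat.eq_zero_of_dvd_of_lt h3 (by omega)
      omega
    intro j hj j' hj' h
    rw [Finset.coe_range, Set.mem_Iio] at hj hj'
    rcases le_total j j' with hjj | hjj
    · exact hle j j' hj hj' hjj h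
    · exact (hle j' j hj' hj hjj h.symm).symm
  · rw [Finset.card_eq_zero, Finset.filter_eq_empty_iff]
    rintro θ h1 ⟨h2, h3⟩
    apply hm
    rw [← hf3']
    obtain ⟨j, -, rfl⟩ := hall θ h1 h2
    intro t
    apply hf4 j
    have h4 := h3 t
    rw [hfr] at h4
    rw [← pow_mul, mul_comm, pow_mul, h4]

/-- all the primes over the given one are kernels -/
lemma exists_ker [SMulCommClass G R S] [Q.IsPrime] [Finite G] [Algebra.IsInvariant R S G]
    [Algebra.IsIntegral T S] [FaithfulSMul T S] {u : Ideal T} [u.IsPrime]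
    (hu : u.under R = Q.under R) : ∃ g : G, RingHom.ker (th T Q g) = u := by
  obtain ⟨⟨Q', hp, hlo⟩⟩ := Ideal.nonempty_primesOver (R := T) (S := S) u
  have h1 : Q.under R = Q'.under R := by
    rw [← Ideal.under_under (B := T) Q', ← hlo.over, hu]
  obtain ⟨g, hg⟩ := Algebra.IsInvariant.exists_smul_of_under_eq R S G Q Q' h1
  refine ⟨g⁻¹, ?_⟩
  ext t
  rw [RingHom.mem_ker, th_apply, Ideal.Quotient.eq_zero_iff_mem, hlo.over, Ideal.mem_comap, hg,
    Ideal.mem_pointwise_smul_iff_inv_smul_mem]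

/-- the degree of the residue field -/
noncomputable def rdeg (R : Type) [CommRing R] [Algebra R T] (u : Ideal T) : ℕ :=
  Nat.log (Nat.card (R ⧸ u.under R)) (Nat.card (T ⧸ u))

/-- **The local identity.** -/
theorem loc_main [SMulCommClass G R S] [Q.IsPrime] [Finite (S ⧸ Q)] [Fintype G]
    [Algebra.IsInvariant R S G] [Algebra.IsIntegral T S] [FaithfulSMul T S]
    [SMulCommClass H T S] [Algebra.IsInvariant T S H]
    {φ : G} (hφ : ∀ x : S, φ • x - x ^ Nat.card (R ⧸ Q.under R) ∈ Q) {U : Finset (Ideal T)}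
    (hU : ∀ u, u ∈ U ↔ u.IsPrime ∧ u.under R = Q.under R) :
    (∀ u ∈ U, 0 < rdeg R u ∧ Nat.card (T ⧸ u) = Nat.card (R ⧸ Q.under R) ^ rdeg R u) ∧
    ∀ m : ℕ, ∑ i : Q.inertia G, fixN H (φ ^ m * i) = Nat.card (Q.inertia G) *
      ∑ u ∈ U, if rdeg R u ∣ m then rdeg R u else 0 := by
  have hPp : (Q.under R).IsPrime := inferInstance
  have hPf : Finite (R ⧸ Q.under R) := .of_injective _ Ideal.algebraMap_quotient_injective
  have hnt : Nontrivial (R ⧸ Q.under R) := Ideal.Quotient.nontrivial_iff.2 hPp.ne_top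
  have hq : 1 < Nat.card (R ⧸ Q.under R) := Finite.one_lt_card
  have key : ∀ u ∈ U, 0 < rdeg R u ∧ Nat.card (T ⧸ u) = Nat.card (R ⧸ Q.under R) ^ rdeg R u ∧
      ∀ m : ℕ, ((YY (G := G) T Q).filter fun θ => RingHom.ker θ = u ∧
        ∀ t, θ t ^ Nat.card (R ⧸ Q.under R) ^ m = θ t).card =
        if rdeg R u ∣ m then rdeg R u else 0 := by
    intro u hu
    obtain ⟨hup, huR⟩ := (hU u).1 hu
    obtain ⟨g, hg⟩ := exists_ker (G := G) (S := S) huR
    obtain ⟨f, hf0, hf1, hf2⟩ := card_fib (R := R) (T := T) hφ g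
    rw [hg] at hf1 hf2
    have e : rdeg R u = f := by
      unfold rdeg
      rw [huR, hf1, Nat.log_pow hq]
    rw [e]
    exact ⟨hf0, hf1, hf2⟩
  refine ⟨fun u hu => ⟨(key u hu).1, (key u hu).2.1⟩, fun m => ?_⟩
  rw [sum_fix (T := T) hφ m]
  congr 1
  rw [Finset.card_eq_sum_card_fiberwise (f := fun θ : T →+* S ⧸ Q => RingHom.ker θ) (t := U)]
  · refine Finset.sum_congr rfl fun u hu => ?_
    rw [← (key u hu).2.2 m, Finset.filter_filter]
    congr 1
    ext θ
    rw [Finset.mem_filter, Finset.mem_filter]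
    exact ⟨fun h => ⟨h.1, h.2.2, h.2.1⟩, fun h => ⟨h.1, h.2.2, h.2.1⟩⟩
  · intro θ hθ
    rw [Finset.mem_coe, Finset.mem_filter] at hθ
    obtain ⟨g, -, hg⟩ := Finset.mem_image.1 hθ.1
    rw [Finset.mem_coe, hU]
    refine ⟨RingHom.ker_isPrime _, ?_⟩
    show (RingHom.ker θ).under R = Q.under R
    rw [← hg]
    exact ker_th_under g

end

end Pool.Agent.K7.H70.EQ
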