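import Pool.Agent.Y696.Nm

/-!
# The numbers of points of `y² + y = x³` over the extensions of a residue field
-/

set_option autoImplicit false

namespace Pool.Agent.K7.H70.EQ

open NumberField IsDedekindDomain
open Pool.Agent.Y696
open Pool.Agent.W192.HK Pool.Agent.TH936.CM Pool.Agent.TH936.PU
open Pool.Agent.W189.NF (aV eV redMap Ov card_res finite_res)
open scoped Classical

/-- the number of the elements of the residue field -/
noncomputable def cP (P : HeightOneSpectrum eis) : ℕ := Nat.card (eis ⧸ P.asIdeal)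

lemma cP_eq (P : HeightOneSpectrum eis) : ((cP P : ℕ) : eis) = gP P * cj (gP P) := by
  apply coe_inj'
  have e1 : ((Nat.card (eis ⧸ P.asIdeal) : ℕ) : ℝ) = Complex.normSq ((gP P : eis) : ℂ) := by
    conv_lhs => rw [gP_span P]
    exact (lbasic eis om qr).2.2.2.2.1 (gP P)
  rw [cj_mul_coe, ← e1]
  unfold cP
  push_cast
  rfl

lemma prime_gP (P : HeightOneSpectrum eis) : Prime (gP P) := by
  have h := P.isPrime
  rw [gP_span P] at h
  exact (Ideal.span_singleton_prime (gP_ne P)).1 h

lemma mem_gP {P : HeightOneSpectrum eis} {x : eis} : x ∈ P.asIdeal ↔ gP P ∣ x := by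
  conv_lhs => rw [gP_span P]
  exact Ideal.mem_span_singleton

/-- primes with multiplicatively dependent norms -/
lemma same_prime {P P' : HeightOneSpectrum eis} {a b : ℕ} (hb : b ≠ 0)
    (h : cP P ^ a = cP P' ^ b) :
    P' = P ∨ ∀ x, x ∈ P'.asIdeal ↔ cj x ∈ P.asIdeal := by
  have h1 : gP P' ∣ ((cP P : ℕ) : eis) ^ a := by
    have e : ((cP P : ℕ) : eis) ^ a = ((cP P' : ℕ) : eis) ^ b := by exact_mod_cast congrArg (fun n : ℕ => (n : eis)) h
    rw [e, cP_eq]
    exact dvd_pow (dvd_mul_right _ _) hb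
  have h2 := (prime_gP P').dvd_of_dvd_pow h1
  rw [cP_eq] at h2
  rcases (prime_gP P').dvd_or_dvd h2 with h3 | h3
  · left
    apply HeightOneSpectrum.ext
    have h4 : P.asIdeal ≤ P'.asIdeal := by
      intro x hx
      rw [mem_gP] at hx ⊢
      exact h3.trans hx
    exact ((P.isPrime.isMaximal P.ne_bot).eq_of_le P'.isPrime.ne_top h4).symm
  · right
    have h4 : P.asIdeal ≤ P'.asIdeal.comap cjh := by
      intro x hx
      rw [Ideal.mem_comap, cjh_apply]
      obtain ⟨y, rfl⟩ := mem_gP.1 hx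
      rw [cj_mul]
      exact P'.asIdeal.mul_mem_right _ (mem_gP.2 h3)
    have h5 : P'.asIdeal.comap cjh ≠ ⊤ := by
      intro h
      rw [Ideal.eq_top_iff_one, Ideal.mem_comap, map_one, ← Ideal.eq_top_iff_one] at h
      exact P'.isPrime.ne_top h
    have h6 := (P.isPrime.isMaximal P.ne_bot).eq_of_le h5 h4
    intro x
    constructor
    · intro hx
      rw [h6, Ideal.mem_comap, cjh_apply, cj_cj]
      exact hx
    · intro hx
      rw [h6, Ideal.mem_comap, cjh_apply, cj_cj] at hx
      exact hx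

lemma cP_one_lt (P : HeightOneSpectrum eis) : 1 < cP P := card_two_le P

lemma psi_norm {P : HeightOneSpectrum eis} (h3 : (3 : eis) ∉ P.asIdeal) :
    psi P.asIdeal * (starRingEnd ℂ) (psi P.asIdeal) = (cP P : ℂ) := by
  have hcop : IsCoprime P.asIdeal (sp 3) := by
    have hpmax : P.asIdeal.IsMaximal := P.isPrime.isMaximal P.ne_bot
    rw [Ideal.isCoprime_iff_sup_eq]
    by_contra hne
    obtain ⟨M, hM, hle⟩ := Ideal.exists_le_maximal _ hne
    have h4 : P.asIdeal = M := hpmax.eq_of_le hM.ne_top (le_sup_left.trans hle)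
    apply h3
    rw [h4]
    exact hle (Ideal.mem_sup_right (Ideal.mem_span_singleton_self 3))
  obtain ⟨π, hπ1, hπ2⟩ := exists_prim hcop
  have hpsi : psi P.asIdeal = π := by rw [hπ1]; exact psi_prim hπ2
  have e1 : ((Nat.card (eis ⧸ P.asIdeal) : ℕ) : ℝ) = Complex.normSq (π : ℂ) := by
    rw [hπ1]
    exact (lbasic eis om qr).2.2.2.2.1 π
  rw [hpsi, Complex.mul_conj, ← e1]
  unfold cP
  push_cast
  rfl

section
variable {K : Type} [Field K] [NumberField K]

/-- the residue field contains the cube roots of unity -/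
def TyA (v : HeightOneSpectrum (𝓞 K)) : Prop :=
  ∃ (P : HeightOneSpectrum eis) (f : ℕ), (3 : eis) ∉ P.asIdeal ∧ 0 < f ∧ nK v = cP P ^ f ∧
    ((aV (E0 K) v : ℤ) : ℂ) = psi P.asIdeal ^ f + (starRingEnd ℂ) (psi P.asIdeal ^ f) ∧
    ((eV (E0 K) v : ℤ) : ℂ) = (nK v : ℂ)

/-- the residue field does not contain the cube roots of unity -/
def TyB (v : HeightOneSpectrum (𝓞 K)) : Prop :=
  nK v % 3 = 2 ∧ (∃ (P : HeightOneSpectrum eis) (f : ℕ), (3 : eis) ∉ P.asIdeal ∧ 0 < f ∧
    (∀ x, x ∈ P.asIdeal ↔ cj x ∈ P.asIdeal) ∧ nK v ^ 2 = cP P ^ f) ∧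
    aV (E0 K) v = 0 ∧ eV (E0 K) v = nK v

variable {M : Type} [Field M] [NumberField M]

lemma I_sq (q : ℕ) : (Complex.I * ((Real.sqrt q : ℝ) : ℂ)) ^ 2 = -(q : ℂ) := by
  rw [mul_pow, Complex.I_sq, ← Complex.ofReal_pow, Real.sq_sqrt (Nat.cast_nonneg q)]
  push_cast
  ring

lemma conj_I_sqrt (q : ℕ) : (starRingEnd ℂ) (Complex.I * ((Real.sqrt q : ℝ) : ℂ)) =
    -(Complex.I * ((Real.sqrt q : ℝ) : ℂ)) := by
  rw [map_mul, Complex.conj_I, Complex.conj_ofReal]
  ring

/-- a self-conjugate prime: the norm is a square which is one modulo three -/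
lemma self_norm {P : HeightOneSpectrum eis} (h3 : (3 : eis) ∉ P.asIdeal)
    (hself : ∀ x, x ∈ P.asIdeal ↔ cj x ∈ P.asIdeal) :
    ∃ t : ℤ, psi P.asIdeal = t ∧ t % 3 = 1 ∧ (cP P : ℤ) = t ^ 2 := psi_self hself h3

lemma pow_mod_one {t : ℤ} (ht : t % 3 = 1) (n : ℕ) : t ^ n % 3 = 1 := by
  have : t ^ n ≡ 1 ^ n [ZMOD 3] := Int.ModEq.pow n ht
  rw [one_pow] at this
  exact this

theorem exists_root {v : HeightOneSpectrum (𝓞 K)} (hv : TyA v ∨ TyB v) :
    ∃ l : ℂ, l * (starRingEnd ℂ) l = (nK v : ℂ) ∧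
      ((aV (E0 K) v : ℤ) : ℂ) = l + (starRingEnd ℂ) l ∧ ((eV (E0 K) v : ℤ) : ℂ) = (nK v : ℂ) ∧
      ∀ (M : Type) [Field M] [NumberField M] (u : HeightOneSpectrum (𝓞 M)), TyA u ∨ TyB u →
        ∀ k : ℕ, 0 < k → nK u = nK v ^ k →
        ((aV (E0 M) u : ℤ) : ℂ) = l ^ k + (starRingEnd ℂ) l ^ k ∧
          ((eV (E0 M) u : ℤ) : ℂ) = (nK u : ℂ) := by
  rcases hv with ⟨P, f, h3, hf, hN, ha, he⟩ | ⟨hmod, ⟨P, f, h3, hf, hself, hN⟩, ha, he⟩
  · refine ⟨psi P.asIdeal ^ f, ?_, ha, he, ?_⟩
    · rw [map_pow, ← mul_pow, psi_norm h3, hN]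
      push_cast
      rfl
    · intro M _ _ u hu k hk hk2
      rcases hu with ⟨P', f', h3', hf', hN', ha', he'⟩ | ⟨hmod', ⟨P', f', h3', hf', hself', hN'⟩,
        ha', he'⟩
      · refine ⟨?_, he'⟩
        rw [hN, hN', ← pow_mul] at hk2
        rcases same_prime (P := P) (P' := P') (a := f * k) (b := f') hf'.ne' hk2.symm with h | h
        · subst h
          have e : f' = f * k := Nat.pow_right_injective (cP_one_lt P') hk2
          rw [ha', e, pow_mul, map_pow]
        · obtain ⟨h5, h6⟩ := psi_cj h h3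
          have h7 : cP P' = cP P := h6
          rw [h7] at hk2
          have e : f' = f * k := Nat.pow_right_injective (cP_one_lt P) hk2
          rw [ha', e, h5, pow_mul, ← map_pow, map_pow (starRingEnd ℂ) _ k, Complex.conj_conj,
            map_pow]
          ring
      · exfalso
        have h4 : cP P ^ (f * k * 2) = cP P' ^ f' := by
          rw [pow_mul, pow_mul, ← hN, ← hk2, hN']
        have hs : ∃ t : ℤ, t % 3 = 1 ∧ (cP P : ℤ) = t ^ 2 := by
          rcases same_prime hf'.ne' h4 with h | h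
          · subst h
            obtain ⟨t, -, h5, h6⟩ := self_norm h3' hself'
            exact ⟨t, h5, h6⟩
          · obtain ⟨t, -, h5, h6⟩ := self_norm h3' hself'
            have h7 : cP P' = cP P := (psi_cj h h3).2
            exact ⟨t, h5, by rw [← h7]; exact h6⟩
        obtain ⟨t, h5, h6⟩ := hs
        have h7 : ((nK u : ℕ) : ℤ) = t ^ (2 * (f * k)) := by
          rw [hk2, hN, ← pow_mul]
          push_cast
          rw [h6, ← pow_mul]
        have h8 := pow_mod_one h5 (2 * (f * k))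
        rw [← h7] at h8
        omega
  · refine ⟨Complex.I * ((Real.sqrt (nK v) : ℝ) : ℂ), ?_, ?_, ?_, ?_⟩
    · rw [conj_I_sqrt]
      linear_combination -(I_sq (nK v))
    · rw [ha, conj_I_sqrt]
      push_cast
      ring
    · rw [he]
      push_cast
      rfl
    · intro M _ _ u hu k hk hk2
      rw [conj_I_sqrt]
      rcases hu with ⟨P', f', h3', hf', hN', ha', he'⟩ | ⟨hmod', -, ha', he'⟩
      · refine ⟨?_, he'⟩
        have h4 : cP P ^ (f * k) = cP P' ^ (f' * 2) := by
          rw [pow_mul, ← hN, pow_mul (cP P'), ← hN', hk2, ← pow_mul, ← pow_mul]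
          ring
        obtain ⟨t, h5, h6, h7⟩ := self_norm h3 hself
        have h8 : psi P'.asIdeal = t ∧ (cP P' : ℤ) = t ^ 2 := by
          rcases same_prime (by positivity) h4 with h | h
          · rw [h]; exact ⟨h5, h7⟩
          · obtain ⟨h9, h10⟩ := psi_cj h h3
            have h11 : cP P' = cP P := h10
            refine ⟨?_, by rw [h11]; exact h7⟩
            rw [h9, h5]
            exact map_intCast _ t
        obtain ⟨h9, h10⟩ := h8
        have h11 : (t ^ f') ^ 2 = ((nK v : ℕ) : ℤ) ^ k := by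
          have : ((nK u : ℕ) : ℤ) = (t ^ 2) ^ f' := by
            rw [hN']
            push_cast
            rw [h10]
          rw [hk2] at this
          push_cast at this
          rw [this]
          ring
        have h12 : t ^ f' % 3 = 1 := pow_mod_one h6 f'
        rcases Nat.even_or_odd' k with ⟨g, hg | hg⟩
        · have h13 : (t ^ f') ^ 2 = ((-((nK v : ℕ) : ℤ)) ^ g) ^ 2 := by
            rw [h11, hg, ← pow_mul, mul_comm g 2, pow_mul (-((nK v : ℕ) : ℤ)) 2 g, neg_sq, pow_mul]
          have h14 : (-((nK v : ℕ) : ℤ)) ^ g % 3 = 1 := pow_mod_one (by omega) g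
          have h15 : t ^ f' = (-((nK v : ℕ) : ℤ)) ^ g := by
            rcases sq_eq_sq_iff_eq_or_eq_neg.1 h13 with h | h
            · exact h
            · exfalso; omega
          have h16 : ((t : ℂ)) ^ f' = (-(nK v : ℂ)) ^ g := by exact_mod_cast h15
          rw [ha', h9, map_pow, map_intCast, h16, hg, pow_mul, pow_mul, neg_sq, I_sq]
        · exfalso
          have h13 : (t ^ f') ^ 2 % 3 = 1 := pow_mod_one h12 2
          have h14 : ((nK v : ℕ) : ℤ) ^ k % 3 = 2 := by
            have e : ((nK v : ℕ) : ℤ) ≡ -1 [ZMOD 3] := by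
              have : nK v % 3 = 2 := hmod
              unfold Int.ModEq
              omega
            have e2 := e.pow k
            rw [hg, pow_succ (-1 : ℤ), pow_mul, neg_one_sq, one_pow, one_mul, ← hg] at e2
            exact e2
          omega
      · refine ⟨?_, by rw [he']; push_cast; rfl⟩
        have hodd : Odd k := by
          rw [← Nat.not_even_iff_odd]
          rintro ⟨g, hg⟩
          have e : ((nK v : ℕ) : ℤ) ≡ -1 [ZMOD 3] := by
            have : nK v % 3 = 2 := hmod
            unfold Int.ModEq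
            omega
          have e2 := e.pow k
          rw [hg, ← two_mul, pow_mul (-1 : ℤ), neg_one_sq, one_pow] at e2
          have e3 : ((nK u : ℕ) : ℤ) = ((nK v : ℕ) : ℤ) ^ k := by rw [hk2]; push_cast; rfl
          rw [hg, ← two_mul] at e3
          rw [← e3] at e2
          unfold Int.ModEq at e2
          omega
        rw [ha', hodd.neg_pow]
        push_cast
        ring

end

end Pool.Agent.K7.H70.EQ
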